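import Mathlib
import Pool.Agent.MP_99d1ae_lc.Defs

section

set_option autoImplicit false

namespace Pool.Agent.MP_99d1ae_lc

open Relation

lemma rtg_lift {α β : Type} {r : α → α → Prop} {p : β → β → Prop} (f : α → β)
    (h : ∀ a b, r a b → p (f a) (f b)) {a b : α} (hab : ReflTransGen r a b) :
    ReflTransGen p (f a) (f b) := by
  induction hab with
  | refl => exact ReflTransGen.refl
  | tail _ hs ih => exact ih.tail (h _ _ hs)

lemma rtg_lift' {α β : Type} {r : α → α → Prop} {p : β → β → Prop} (f : α → β)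
    (h : ∀ a b, r a b → ReflTransGen p (f a) (f b)) {a b : α} (hab : ReflTransGen r a b) :
    ReflTransGen p (f a) (f b) := by
  induction hab with
  | refl => exact ReflTransGen.refl
  | tail _ hs ih => exact ih.trans (h _ _ hs)

section
variable {ι τ : Type}

/-- Runs of a labelled transition system on multisets, recording label and source. -/
inductive Run (Tr : Set τ) (St : τ → Multiset ι → Multiset ι → Prop) :
    Multiset ι → List (τ × Multiset ι) → Multiset ι → Prop
  | nil (c : Multiset ι) : Run Tr St c [] c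
  | cons {t : τ} {c c' d : Multiset ι} {l : List (τ × Multiset ι)} :
      t ∈ Tr → St t c c' → Run Tr St c' l d → Run Tr St c ((t, c) :: l) d

variable {Tr : Set τ} {St : τ → Multiset ι → Multiset ι → Prop}

lemma Run.reach {c d : Multiset ι} {l : List (τ × Multiset ι)} (h : Run Tr St c l d) :
    ReflTransGen (fun x y => ∃ t ∈ Tr, St t x y) c d := by
  induction h with
  | nil c => exact ReflTransGen.refl
  | cons ht hs _ ih => exact ReflTransGen.head ⟨_, ht, hs⟩ ih

lemma Run.mem {c d : Multiset ι} {l : List (τ × Multiset ι)} (h : Run Tr St c l d) :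
    ∀ x ∈ l, x.1 ∈ Tr := by
  induction h with
  | nil c => simp
  | cons ht _ _ ih =>
    intro x hx
    rcases List.mem_cons.mp hx with rfl | hx
    · exact ht
    · exact ih x hx

lemma exists_run {c d : Multiset ι} (h : ReflTransGen (fun x y => ∃ t ∈ Tr, St t x y) c d) :
    ∃ l, Run Tr St c l d := by
  induction h using ReflTransGen.head_induction_on with
  | refl => exact ⟨[], Run.nil _⟩
  | head hs _ ih =>
    obtain ⟨t, ht, hs⟩ := hs
    obtain ⟨l, hl⟩ := ih
    exact ⟨_, Run.cons ht hs hl⟩

lemma reach_add (mono : ∀ t c c' e, St t c c' → St t (c + e) (c' + e)) {c d : Multiset ι}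
    (h : ReflTransGen (fun x y => ∃ t ∈ Tr, St t x y) c d) (e : Multiset ι) :
    ReflTransGen (fun x y => ∃ t ∈ Tr, St t x y) (c + e) (d + e) := by
  induction h with
  | refl => exact ReflTransGen.refl
  | tail _ hs ih =>
    obtain ⟨t, ht, hs⟩ := hs
    exact ih.tail ⟨t, ht, mono _ _ _ _ hs⟩

lemma reach_pump (mono : ∀ t c c' e, St t c c' → St t (c + e) (c' + e)) {c u v : Multiset ι}
    (h : ReflTransGen (fun x y => ∃ t ∈ Tr, St t x y) (c + u) (c + v)) (m : ℕ) :
    ReflTransGen (fun x y => ∃ t ∈ Tr, St t x y) (c + m • u) (c + m • v) := by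
  induction m with
  | zero => simpa using ReflTransGen.refl
  | succ m ih =>
    have h1 := reach_add mono h (m • u)
    have h2 := reach_add mono ih v
    have e1 : c + (m + 1) • u = c + u + m • u := by rw [succ_nsmul]; abel
    have e2 : c + v + m • u = c + m • u + v := by abel
    have e3 : c + (m + 1) • v = c + m • v + v := by rw [succ_nsmul]; abel
    rw [e1, e3]
    exact h1.trans (e2 ▸ h2)

lemma amalg (mono : ∀ t c c' e, St t c c' → St t (c + e) (c' + e))
    (eff : ∀ t c c' d d', St t c c' → St t d d' → c' + d = d' + c)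
    {l l' : List (τ × Multiset ι)}
    (hs : List.SublistForall₂ (fun a b : τ × Multiset ι => a.1 = b.1 ∧ a.2 ≤ b.2) l l') :
    ∀ {c u c' d v : Multiset ι}, Run Tr St c l d →
      ReflTransGen (fun x y => ∃ t ∈ Tr, St t x y) (c + u) c' → Run Tr St c' l' (d + v) →
      ∀ m : ℕ, ReflTransGen (fun x y => ∃ t ∈ Tr, St t x y) (c + m • u) (d + m • v) := by
  induction hs with
  | nil =>
    intro c u c' d v h1 h2 h3 m
    cases h1
    exact reach_pump mono (h2.trans h3.reach) m
  | @cons a b l1 l2 hab _ ih =>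
    intro c u c' d v h1 h2 h3 m
    cases h1 with
    | @cons t _ c1 _ _ ht hst hr =>
      cases h3 with
      | @cons t' _ c1' _ _ ht' hst' hr' =>
        obtain ⟨e1, e2⟩ := hab
        simp only at e1 e2
        subst e1
        obtain ⟨u', rfl⟩ := Multiset.le_iff_exists_add.mp e2
        have e3 : c1' = c1 + u' := by
          have := eff _ _ _ _ _ hst hst'
          have h4 : c1' + c = (c1 + u') + c := by rw [← this]; abel
          exact add_right_cancel h4
        subst e3
        have p1 := reach_pump mono h2 m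
        have p2 := ih hr ReflTransGen.refl hr' m
        exact p1.trans (ReflTransGen.head ⟨t, ht, mono _ _ _ _ hst⟩ p2)
  | @cons_right b l1 l2 _ ih =>
    intro c u c' d v h1 h2 h3 m
    cases h3 with
    | @cons t' _ c1' _ _ ht' hst' hr' =>
      exact ih h1 (h2.tail ⟨t', ht', hst'⟩) hr' m

lemma multiset_wqo [Finite ι] : WellQuasiOrdered (fun a b : Multiset ι => a ≤ b) := by
  classical
  intro f
  have h : WellQuasiOrdered (fun a b : ι → ℕ => a ≤ b) := wellQuasiOrdered_le
  obtain ⟨m, n, hmn, h⟩ := h (fun k i => (f k).count i)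
  exact ⟨m, n, hmn, Multiset.le_iff_count.mpr fun i => h i⟩

theorem pump [Finite ι] (hTr : Tr.Finite)
    (mono : ∀ t c c' e, St t c c' → St t (c + e) (c' + e))
    (eff : ∀ t c c' d d', St t c c' → St t d d' → c' + d = d' + c)
    {I : Set (Multiset ι)} (hI : I.Finite) (f : ℕ → Multiset ι)
    (hf : ∀ n, ∃ c ∈ I, ReflTransGen (fun x y => ∃ t ∈ Tr, St t x y) c (f n)) :
    ∃ i j, i < j ∧ ∃ v, f j = f i + v ∧ ∀ m : ℕ,
      ∃ c ∈ I, ReflTransGen (fun x y => ∃ t ∈ Tr, St t x y) c (f i + m • v) := by
  choose c hc hr using hf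
  choose l hl using fun n => exists_run (hr n)
  have hM : (Set.univ : Set (Multiset ι)).PartiallyWellOrderedOn (fun a b => a ≤ b) :=
    Set.partiallyWellOrderedOn_univ_iff.mpr multiset_wqo
  have hT : Tr.PartiallyWellOrderedOn (fun a b => a = b) := hTr.partiallyWellOrderedOn
  have hIw : I.PartiallyWellOrderedOn (fun a b => a = b) := hI.partiallyWellOrderedOn
  have hP := hT.prod hM
  have : IsPreorder (τ × Multiset ι) (fun a b : τ × Multiset ι => a.1 = b.1 ∧ a.2 ≤ b.2) :=
    { refl := fun a => ⟨rfl, le_rfl⟩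
      trans := fun a b c h1 h2 => ⟨h1.1.trans h2.1, h1.2.trans h2.2⟩ }
  have hH := Set.PartiallyWellOrderedOn.partiallyWellOrderedOn_sublistForall₂ _ hP
  have hAll := hIw.prod (hM.prod hH)
  obtain ⟨i, j, hij, h1, h2, h3⟩ := hAll.exists_lt (f := fun n => (c n, f n, l n))
    (fun n => ⟨hc n, Set.mem_univ _, fun x hx => ⟨(hl n).mem x hx, Set.mem_univ _⟩⟩)
  simp only at h1 h2 h3
  obtain ⟨v, hv⟩ := Multiset.le_iff_exists_add.mp h2
  refine ⟨i, j, hij, v, hv, fun m => ⟨c i, hc i, ?_⟩⟩
  have h4 : Run Tr St (c j) (l j) (f i + v) := hv ▸ hl j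
  have := amalg mono eff h3 (u := 0) (hl i) (by rw [add_zero, h1]) h4 m
  simpa using this

end

end Pool.Agent.MP_99d1ae_lc

end

section

set_option autoImplicit false

namespace Pool.Agent.MP_99d1ae_lc

open Relation

lemma coe_flatten_ofFn {α : Type} : ∀ {n : ℕ} (f : Fin n → List α),
    (((List.ofFn f).flatten : List α) : Multiset α) = ∑ i, (f i : Multiset α)
  | 0, f => by simp
  | n + 1, f => by
    rw [List.ofFn_succ, List.flatten_cons, Fin.sum_univ_succ, ← Multiset.coe_add,
      coe_flatten_ofFn]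

lemma exists_map_terminal {T N : Type} : ∀ (y : List (Symbol T N)),
    (∀ A, Symbol.nonterminal A ∉ y) → ∃ z : List T, y = z.map Symbol.terminal
  | [], _ => ⟨[], rfl⟩
  | Symbol.terminal t :: y, h => by
    obtain ⟨z, rfl⟩ := exists_map_terminal y (fun A hA => h A (List.mem_cons_of_mem _ hA))
    exact ⟨t :: z, rfl⟩
  | Symbol.nonterminal A :: y, h => absurd List.mem_cons_self (h A)

lemma terminal_injective {T N : Type} :
    Function.Injective (Symbol.terminal : T → Symbol T N) := fun _ _ h => by
  cases h; rfl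

lemma finite_symbol {T N : Type} [Finite T] [Finite N] : Finite (Symbol T N) := by
  have := Fintype.ofFinite T
  have := Fintype.ofFinite N
  infer_instance

/-- Well-formed sentential forms. -/
def WF {T N : Type} {n : ℕ} (comp : N → Fin n) (x : List (Symbol T N)) : Prop :=
  (∀ A, Symbol.nonterminal A ∉ x) ∨
    ∃ p : Fin n → List (Symbol T N), x = (List.ofFn p).flatten ∧ ∀ i, Over comp i (p i)

def EMSt {T N : Type} {n : ℕ} (r : (Fin n → N) × (Fin n → List (Symbol T N)))
    (c c' : Multiset (Symbol T N)) : Prop :=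
  ∃ e, c = e + ∑ i, ({Symbol.nonterminal (r.1 i)} : Multiset (Symbol T N)) ∧
    c' = e + ∑ i, (r.2 i : Multiset (Symbol T N))

lemma coe_split {T N : Type} {n : ℕ} (u v w : Fin n → List (Symbol T N)) :
    (((List.ofFn fun i => u i ++ v i ++ w i).flatten : List _) : Multiset (Symbol T N)) =
      (∑ i, ((u i : Multiset (Symbol T N)) + w i)) + ∑ i, (v i : Multiset (Symbol T N)) := by
  rw [coe_flatten_ofFn, ← Finset.sum_add_distrib]
  refine Finset.sum_congr rfl fun i _ => ?_
  rw [← Multiset.coe_add, ← Multiset.coe_add]; abel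

lemma Step1.emst {T N : Type} {n : ℕ} {comp : N → Fin n}
    {rules : Set ((Fin n → N) × (Fin n → List (Symbol T N)))} {x y : List (Symbol T N)}
    (h : Step1 comp rules x y) : ∃ r ∈ rules, EMSt r (x : Multiset _) (y : Multiset _) := by
  obtain ⟨r, hr, u, w, _, rfl, rfl⟩ := h
  refine ⟨r, hr, ∑ i, ((u i : Multiset (Symbol T N)) + w i), ?_, ?_⟩
  · exact coe_split u (fun i => [Symbol.nonterminal (r.1 i)]) w
  · exact coe_split u r.2 w

lemma step1_of_mem {T N : Type} {n : ℕ} (hn : 1 ≤ n) {comp : N → Fin n}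
    {rules : Set ((Fin n → N) × (Fin n → List (Symbol T N)))}
    (hok : ∀ r ∈ rules, ∀ i, comp (r.1 i) = i ∧ Over comp i (r.2 i))
    {x : List (Symbol T N)} (hx : WF comp x) {r : (Fin n → N) × (Fin n → List (Symbol T N))}
    (hr : r ∈ rules) (hmem : ∀ i, Symbol.nonterminal (r.1 i) ∈ x) :
    ∃ u w : Fin n → List (Symbol T N),
      (∀ i, Over comp i (u i ++ w i) ∧ Symbol.nonterminal (r.1 i) ∉ u i) ∧
      x = (List.ofFn fun i => u i ++ [Symbol.nonterminal (r.1 i)] ++ w i).flatten := by
  rcases hx with hx | ⟨p, rfl, hp⟩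
  · exact absurd (hmem ⟨0, hn⟩) (hx _)
  have h1 : ∀ i, Symbol.nonterminal (r.1 i) ∈ p i := by
    intro i
    obtain ⟨l, hl, hA⟩ := List.mem_flatten.mp (hmem i)
    obtain ⟨j, rfl⟩ := List.mem_ofFn.mp hl
    have h2 := hp j _ hA
    rw [(hok r hr i).1] at h2
    subst h2
    exact hA
  choose u w huw using fun i => List.eq_append_cons_of_mem (h1 i)
  refine ⟨u, w, fun i => ⟨?_, (huw i).2⟩, ?_⟩
  · intro A hA
    apply hp i A
    rw [(huw i).1]
    rcases List.mem_append.mp hA with h | h
    · exact List.mem_append_left _ h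
    · exact List.mem_append_right _ (List.mem_cons_of_mem _ h)
  · congr 2
    funext i
    rw [(huw i).1]; simp

lemma wf_of_split {T N : Type} {n : ℕ} {comp : N → Fin n} {u v w : Fin n → List (Symbol T N)}
    (h1 : ∀ i, Over comp i (u i ++ w i)) (h2 : ∀ i, Over comp i (v i)) :
    WF comp (List.ofFn fun i => u i ++ v i ++ w i).flatten := by
  refine Or.inr ⟨_, rfl, fun i A hA => ?_⟩
  rcases List.mem_append.mp hA with h | h
  · rcases List.mem_append.mp h with h | h
    · exact h1 i A (List.mem_append_left _ h)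
    · exact h2 i A h
  · exact h1 i A (List.mem_append_right _ h)

lemma step1_of_emst {T N : Type} {n : ℕ} (hn : 1 ≤ n) {comp : N → Fin n}
    {rules : Set ((Fin n → N) × (Fin n → List (Symbol T N)))}
    (hok : ∀ r ∈ rules, ∀ i, comp (r.1 i) = i ∧ Over comp i (r.2 i))
    {x : List (Symbol T N)} (hx : WF comp x) {r : (Fin n → N) × (Fin n → List (Symbol T N))}
    (hr : r ∈ rules) {c' : Multiset (Symbol T N)} (h : EMSt r (x : Multiset _) c') :
    ∃ y, Step1 comp rules x y ∧ (y : Multiset _) = c' ∧ WF comp y := by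
  obtain ⟨e, he, rfl⟩ := h
  have hmem : ∀ i, Symbol.nonterminal (r.1 i) ∈ x := by
    intro i
    rw [← Multiset.mem_coe, he, Multiset.mem_add]
    right
    rw [Multiset.mem_sum]
    exact ⟨i, Finset.mem_univ _, Multiset.mem_singleton_self _⟩
  obtain ⟨u, w, h1, h2⟩ := step1_of_mem hn hok hx hr hmem
  refine ⟨_, ⟨r, hr, u, w, h1, h2, rfl⟩, ?_, wf_of_split (fun i => (h1 i).1) fun i => (hok r hr i).2⟩
  rw [coe_split]
  have h3 := coe_split u (fun i => [Symbol.nonterminal (r.1 i)]) w
  rw [← h2, he] at h3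
  have h4 : e = ∑ i, ((u i : Multiset (Symbol T N)) + w i) := add_right_cancel h3
  rw [h4]

lemma reach_of_emst {T N : Type} {n : ℕ} (hn : 1 ≤ n) {comp : N → Fin n}
    {rules : Set ((Fin n → N) × (Fin n → List (Symbol T N)))}
    (hok : ∀ r ∈ rules, ∀ i, comp (r.1 i) = i ∧ Over comp i (r.2 i))
    {x : List (Symbol T N)} (hx : WF comp x) {c' : Multiset (Symbol T N)}
    (h : ReflTransGen (fun a b => ∃ r ∈ rules, EMSt r a b) (x : Multiset _) c') :
    ∃ y, ReflTransGen (Step1 comp rules) x y ∧ (y : Multiset _) = c' ∧ WF comp y := by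
  induction h with
  | refl => exact ⟨x, ReflTransGen.refl, rfl, hx⟩
  | tail _ hs ih =>
    obtain ⟨y, h1, rfl, h3⟩ := ih
    obtain ⟨r, hr, hs⟩ := hs
    obtain ⟨z, h4, h5, h6⟩ := step1_of_emst hn hok h3 hr hs
    exact ⟨z, h1.tail h4, h5, h6⟩

/-- From a pumped multiset back to terminal words. -/
lemma pumped_word {T N : Type} [DecidableEq T] {a b : List T} {v : Multiset (Symbol T N)}
    (hv : ((b.map Symbol.terminal : List (Symbol T N)) : Multiset _) =
      ((a.map Symbol.terminal : List (Symbol T N)) : Multiset _) + v) (m : ℕ)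
    {y : List (Symbol T N)}
    (hy : (y : Multiset _) = ((a.map Symbol.terminal : List (Symbol T N)) : Multiset _) + m • v) :
    ∃ z : List T, y = z.map Symbol.terminal ∧
      ∀ t, z.count t + m * a.count t = a.count t + m * b.count t := by
  classical
  have h0 : ∀ A, Symbol.nonterminal A ∉ y := by
    intro A hA
    rw [← Multiset.mem_coe, hy, Multiset.mem_add] at hA
    rcases hA with hA | hA
    · simp at hA
    · have h1 := Multiset.mem_of_mem_nsmul hA
      have h2 : Symbol.nonterminal A ∈
          ((b.map Symbol.terminal : List (Symbol T N)) : Multiset (Symbol T N)) := by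
        rw [hv]; exact Multiset.mem_add.mpr (Or.inr h1)
      simp at h2
  obtain ⟨z, rfl⟩ := exists_map_terminal y h0
  refine ⟨z, rfl, fun t => ?_⟩
  have h1 := congrArg (Multiset.count (Symbol.terminal t : Symbol T N)) hv
  have h2 := congrArg (Multiset.count (Symbol.terminal t : Symbol T N)) hy
  simp only [Multiset.count_add, Multiset.count_nsmul, Multiset.coe_count,
    List.count_map_of_injective _ _ terminal_injective] at h1 h2
  rw [h2, h1]; ring

theorem IsEM1.pump {T : Type} [Finite T] [DecidableEq T] {L : Language T} (h : IsEM1 L)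
    (w : ℕ → List T) (hw : ∀ k, w k ∈ L) :
    ∃ i j, i < j ∧ ∀ m : ℕ, ∃ z ∈ L, ∀ t,
      z.count t + m * (w i).count t = (w i).count t + m * (w j).count t := by
  obtain ⟨n, N, hN, comp, start, rules, hn, hs, hr, hso, hro, hL⟩ := h
  have : Finite (Symbol T N) := finite_symbol
  obtain ⟨i, j, hij, v, hv, hm⟩ := Pool.Agent.MP_99d1ae_lc.pump (Tr := rules) (St := EMSt) hr
    (by
      rintro t c c' e ⟨e', rfl, rfl⟩
      exact ⟨e' + e, by abel, by abel⟩)
    (by
      rintro t c c' d d' ⟨e, rfl, rfl⟩ ⟨e', rfl, rfl⟩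
      abel)
    (I := (fun x : List (Symbol T N) => (x : Multiset _)) '' start) (hs.image _)
    (fun k => (((w k).map Symbol.terminal : List (Symbol T N)) : Multiset _))
    (by
      intro k
      obtain ⟨x, hx, hd⟩ := (hL _).mp (hw k)
      refine ⟨x, ⟨x, hx, rfl⟩, ?_⟩
      exact rtg_lift (fun x : List (Symbol T N) => (x : Multiset (Symbol T N)))
        (fun a b hab => Step1.emst hab) hd)
  refine ⟨i, j, hij, fun m => ?_⟩
  obtain ⟨c, ⟨x, hx, rfl⟩, hc⟩ := hm m
  have hwf : WF comp x := by
    rcases hso x hx with h | ⟨p, h1, h2⟩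
    · exact Or.inl h
    · exact Or.inr ⟨p, h1, fun i => (h2 i).1⟩
  obtain ⟨y, h1, h2, _⟩ := reach_of_emst hn hro hwf hc
  obtain ⟨z, rfl, hz⟩ := pumped_word hv m h2
  exact ⟨z, (hL z).mpr ⟨x, hx, h1⟩, hz⟩

end Pool.Agent.MP_99d1ae_lc

end

section

set_option autoImplicit false

namespace Pool.Agent.MP_99d1ae_lc

open Relation

/-- Matrix application on Parikh multisets. -/
def MSt {T N : Type} : List (ContextFreeRule T N) → Multiset (Symbol T N) →
    Multiset (Symbol T N) → Prop
  | [], c, c' => c = c'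
  | r :: m, c, c' => ∃ e, c = e + {Symbol.nonterminal r.input} ∧
      MSt m (e + (r.output : Multiset (Symbol T N))) c'

lemma MSt.mono {T N : Type} : ∀ (m : List (ContextFreeRule T N)) (c c' e : Multiset (Symbol T N)),
    MSt m c c' → MSt m (c + e) (c' + e)
  | [], c, c', e, h => by
    have h' : c = c' := h
    rw [h']; rfl
  | r :: m, c, c', e, h => by
    obtain ⟨e', rfl, h⟩ := h
    refine ⟨e' + e, by abel, ?_⟩
    have := MSt.mono m _ _ e h
    have e1 : e' + e + (r.output : Multiset (Symbol T N)) = e' + r.output + e := by abel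
    rw [e1]; exact this

lemma MSt.eff {T N : Type} : ∀ (m : List (ContextFreeRule T N))
    (c c' d d' : Multiset (Symbol T N)), MSt m c c' → MSt m d d' → c' + d = d' + c
  | [], c, c', d, d', h1, h2 => by
    have h1' : c = c' := h1
    have h2' : d = d' := h2
    rw [h1', h2', add_comm]
  | r :: m, c, c', d, d', h1, h2 => by
    obtain ⟨e1, rfl, h1⟩ := h1
    obtain ⟨e2, rfl, h2⟩ := h2
    have := MSt.eff m _ _ _ _ h1 h2
    have h3 : c' + (e2 + {Symbol.nonterminal r.input}) + (r.output : Multiset (Symbol T N)) =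
        d' + (e1 + {Symbol.nonterminal r.input}) + (r.output : Multiset (Symbol T N)) := by
      calc _ = c' + (e2 + (r.output : Multiset (Symbol T N))) + {Symbol.nonterminal r.input} := by
            abel
        _ = d' + (e1 + (r.output : Multiset (Symbol T N))) + {Symbol.nonterminal r.input} := by
            rw [this]
        _ = _ := by abel
    exact add_right_cancel h3

lemma coe_three {α : Type} (p v q : List α) :
    ((p ++ v ++ q : List α) : Multiset α) = ((p : Multiset α) + q) + v := by
  rw [← Multiset.coe_add, ← Multiset.coe_add]; abel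

lemma MatStep.mst {T N : Type} : ∀ (m : List (ContextFreeRule T N)) (x y : List (Symbol T N)),
    MatStep m x y → MSt m (x : Multiset _) (y : Multiset _)
  | [], x, y, h => by
    have h' : x = y := h
    rw [h']; rfl
  | r :: m, x, y, h => by
    obtain ⟨z, h1, h2⟩ := h
    obtain ⟨p, q, rfl, rfl⟩ := h1.exists_parts
    refine ⟨(p : Multiset (Symbol T N)) + (q : Multiset (Symbol T N)), coe_three _ _ _, ?_⟩
    rw [← coe_three]
    exact MatStep.mst m _ _ h2

lemma matStep_of_mst {T N : Type} : ∀ (m : List (ContextFreeRule T N)) (x : List (Symbol T N))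
    (c' : Multiset (Symbol T N)), MSt m (x : Multiset _) c' →
      ∃ y, MatStep m x y ∧ (y : Multiset _) = c'
  | [], x, c', h => ⟨x, rfl, h⟩
  | r :: m, x, c', h => by
    obtain ⟨e, he, h⟩ := h
    have hmem : Symbol.nonterminal r.input ∈ x := by
      rw [← Multiset.mem_coe, he]; simp
    obtain ⟨p, q, rfl⟩ := List.append_of_mem hmem
    have e1 : p ++ Symbol.nonterminal r.input :: q = p ++ [Symbol.nonterminal r.input] ++ q := by
      simp
    rw [e1, coe_three] at he
    have e2 : (p : Multiset (Symbol T N)) + q = e := add_right_cancel he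
    rw [← e2, ← coe_three] at h
    obtain ⟨y, h1, h2⟩ := matStep_of_mst m _ _ h
    exact ⟨y, ⟨_, e1 ▸ r.rewrites_of_exists_parts p q, h1⟩, h2⟩

theorem IsMatrix.pump {T : Type} [Finite T] [DecidableEq T] {L : Language T} (h : IsMatrix L)
    (w : ℕ → List T) (hw : ∀ k, w k ∈ L) :
    ∃ i j, i < j ∧ ∀ m : ℕ, ∃ z ∈ L, ∀ t,
      z.count t + m * (w i).count t = (w i).count t + m * (w j).count t := by
  obtain ⟨N, hN, S, M, hM, hL⟩ := h
  have : Finite (Symbol T N) := finite_symbol
  obtain ⟨i, j, hij, v, hv, hm⟩ := Pool.Agent.MP_99d1ae_lc.pump (Tr := M) (St := MSt) hM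
    MSt.mono MSt.eff
    (I := {(([Symbol.nonterminal S] : List (Symbol T N)) : Multiset (Symbol T N))})
    (Set.finite_singleton _)
    (fun k => (((w k).map Symbol.terminal : List (Symbol T N)) : Multiset _))
    (by
      intro k
      refine ⟨_, rfl, ?_⟩
      exact rtg_lift (fun x : List (Symbol T N) => (x : Multiset (Symbol T N)))
        (fun a b ⟨m, hm, hab⟩ => ⟨m, hm, MatStep.mst m a b hab⟩) ((hL _).mp (hw k)))
  refine ⟨i, j, hij, fun m => ?_⟩
  obtain ⟨c, rfl, hc⟩ := hm m
  have key : ∀ c', ReflTransGen (fun x y => ∃ t ∈ M, MSt t x y)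
      (([Symbol.nonterminal S] : List (Symbol T N)) : Multiset (Symbol T N)) c' →
      ∃ y : List (Symbol T N), ReflTransGen (fun x y => ∃ m ∈ M, MatStep m x y)
        [Symbol.nonterminal S] y ∧ (y : Multiset _) = c' := by
    intro c' hc'
    induction hc' with
    | refl => exact ⟨_, ReflTransGen.refl, rfl⟩
    | tail _ hs ih =>
      obtain ⟨y, h1, rfl⟩ := ih
      obtain ⟨t, ht, hs⟩ := hs
      obtain ⟨z, h2, h3⟩ := matStep_of_mst t _ _ hs
      exact ⟨z, h1.tail ⟨t, ht, h2⟩, h3⟩
  obtain ⟨y, h1, h2⟩ := key _ hc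
  obtain ⟨z, rfl, hz⟩ := pumped_word hv m h2
  exact ⟨z, (hL z).mpr h1, hz⟩

section triple

variable {T N Q : Type} (δ : Q → T → Q)

inductive Ann : Q → List (Symbol T (Q × N × Q)) → Q → Prop
  | nil (q : Q) : Ann q [] q
  | term {p q : Q} {t : T} {x : List (Symbol T (Q × N × Q))} :
      Ann (δ p t) x q → Ann p (Symbol.terminal t :: x) q
  | nt {p s q : Q} {A : N} {x : List (Symbol T (Q × N × Q))} :
      Ann s x q → Ann p (Symbol.nonterminal (p, A, s) :: x) q

variable {δ}

lemma Ann.append {p s q : Q} {x y : List (Symbol T (Q × N × Q))} (h1 : Ann δ p x s)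
    (h2 : Ann δ s y q) : Ann δ p (x ++ y) q := by
  induction h1 with
  | nil _ => exact h2
  | term _ ih => exact Ann.term (ih h2)
  | nt _ ih => exact Ann.nt (ih h2)

lemma Ann.split : ∀ {x y : List (Symbol T (Q × N × Q))} {p q : Q}, Ann δ p (x ++ y) q →
    ∃ s, Ann δ p x s ∧ Ann δ s y q
  | [], y, p, q, h => ⟨p, Ann.nil _, h⟩
  | a :: x, y, p, q, h => by
    cases h with
    | term h =>
      obtain ⟨s, h1, h2⟩ := Ann.split h
      exact ⟨s, Ann.term h1, h2⟩
    | nt h =>
      obtain ⟨s, h1, h2⟩ := Ann.split h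
      exact ⟨s, Ann.nt h1, h2⟩

lemma ann_terminal {w : List T} {p q : Q} :
    Ann (N := N) δ p (w.map Symbol.terminal) q ↔ w.foldl δ p = q := by
  induction w generalizing p with
  | nil =>
    constructor
    · intro h; cases h; rfl
    · rintro rfl; exact Ann.nil _
  | cons t w ih =>
    constructor
    · intro h
      cases h with
      | term h => exact ih.mp h
    · intro h
      exact Ann.term (ih.mpr h)

def er : Symbol T (Q × N × Q) → Symbol T N
  | Symbol.terminal t => Symbol.terminal t
  | Symbol.nonterminal A => Symbol.nonterminal A.2.1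

def erRule (r : ContextFreeRule T (Q × N × Q)) : ContextFreeRule T N :=
  ⟨r.input.2.1, r.output.map er⟩

def GoodRule (δ : Q → T → Q) (r : ContextFreeRule T (Q × N × Q)) : Prop :=
  Ann δ r.input.1 r.output r.input.2.2

lemma rewrites_down {r : ContextFreeRule T (Q × N × Q)} (hr : GoodRule δ r)
    {x y : List (Symbol T (Q × N × Q))} (h : r.Rewrites x y) {p q : Q} (hx : Ann δ p x q) :
    Ann δ p y q ∧ (erRule r).Rewrites (x.map er) (y.map er) := by
  obtain ⟨u, v, rfl, rfl⟩ := h.exists_parts
  constructor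
  · obtain ⟨s, h1, h2⟩ := hx.split
    obtain ⟨s', h3, h4⟩ := h1.split
    obtain ⟨⟨a, A, b⟩, out⟩ := r
    cases h4 with
    | nt h5 =>
      cases h5
      exact (h3.append hr).append h2
  · simp only [List.map_append]
    exact (erRule r).rewrites_of_exists_parts _ _

lemma matStep_down : ∀ (m : List (ContextFreeRule T (Q × N × Q))), (∀ r ∈ m, GoodRule δ r) →
    ∀ {x y : List (Symbol T (Q × N × Q))}, MatStep m x y → ∀ {p q : Q}, Ann δ p x q →
      Ann δ p y q ∧ MatStep (m.map erRule) (x.map er) (y.map er)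
  | [], _, x, y, h, p, q, hx => by
    have h' : x = y := h
    subst h'
    exact ⟨hx, rfl⟩
  | r :: m, hm, x, y, h, p, q, hx => by
    obtain ⟨z, h1, h2⟩ := h
    obtain ⟨h3, h4⟩ := rewrites_down (hm r List.mem_cons_self) h1 hx
    obtain ⟨h5, h6⟩ := matStep_down m (fun r hr => hm r (List.mem_cons_of_mem _ hr)) h2 h3
    exact ⟨h5, _, h4, h6⟩

lemma rewrites_up {r : ContextFreeRule T N} {x y : List (Symbol T N)} (h : r.Rewrites x y)
    {y' : List (Symbol T (Q × N × Q))} (hy : y'.map er = y) {p q : Q} (ha : Ann δ p y' q) :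
    ∃ r' x', GoodRule δ r' ∧ erRule r' = r ∧ x'.map er = x ∧ Ann δ p x' q ∧ r'.Rewrites x' y' := by
  obtain ⟨u, v, rfl, rfl⟩ := h.exists_parts
  obtain ⟨y1, v', rfl, h1, rfl⟩ := List.map_eq_append_iff.mp hy
  obtain ⟨u', o', rfl, rfl, h2⟩ := List.map_eq_append_iff.mp h1
  obtain ⟨s, h3, h4⟩ := ha.split
  obtain ⟨s', h5, h6⟩ := h3.split
  refine ⟨⟨(s', r.input, s), o'⟩, u' ++ [Symbol.nonterminal (s', r.input, s)] ++ v', h6, ?_, ?_, ?_,
    ContextFreeRule.rewrites_of_exists_parts _ _ _⟩
  · cases r; simp only [erRule]; congr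
  · simp [er]
  · exact (h5.append (Ann.nt (Ann.nil _))).append h4

lemma matStep_up : ∀ (m : List (ContextFreeRule T N)) {x y : List (Symbol T N)}, MatStep m x y →
    ∀ {y' : List (Symbol T (Q × N × Q))}, y'.map er = y → ∀ {p q : Q}, Ann δ p y' q →
      ∃ m' x', (∀ r ∈ m', GoodRule δ r) ∧ m'.map erRule = m ∧ x'.map er = x ∧ Ann δ p x' q ∧
        MatStep m' x' y'
  | [], x, y, h, y', hy, p, q, ha => by
    have h' : x = y := h
    subst h'
    exact ⟨[], y', by simp, rfl, hy, ha, rfl⟩
  | r :: m, x, y, h, y', hy, p, q, ha => by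
    obtain ⟨z, h1, h2⟩ := h
    obtain ⟨m', z', h3, h4, h5, h6, h7⟩ := matStep_up m h2 hy ha
    obtain ⟨r', x', h8, h9, h10, h11, h12⟩ := rewrites_up h1 h5 h6
    refine ⟨r' :: m', x', ?_, by simp [h4, h9], h10, h11, z', h12, h7⟩
    intro r'' hr''
    rcases List.mem_cons.mp hr'' with rfl | h
    · exact h8
    · exact h3 _ h

lemma finite_fiber_map {α β : Type} (f : α → β) (hf : ∀ b, {a | f a = b}.Finite) :
    ∀ l : List β, {l' : List α | l'.map f = l}.Finite
  | [] => (Set.finite_singleton []).subset fun l' h => by simpa using h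
  | b :: l => by
    refine ((hf b).image2 List.cons (finite_fiber_map f hf l)).subset fun l' h => ?_
    obtain ⟨a, l'', rfl, h1, h2⟩ := List.map_eq_cons_iff.mp h
    exact ⟨a, h1, l'', h2, rfl⟩

lemma map_er_terminal (w : List T) :
    (w.map (Symbol.terminal : T → Symbol T (Q × N × Q))).map er = w.map Symbol.terminal := by
  simp [List.map_map, Function.comp_def, er]

theorem IsMatrix.inter_dfa [Finite T] [Finite Q] {L : Language T} (h : IsMatrix L)
    (δ : Q → T → Q) (q0 qf : Q) :
    IsMatrix ({w | w ∈ L ∧ w.foldl δ q0 = qf} : Language T) := by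
  obtain ⟨N, hN, S, M, hM, hL⟩ := h
  refine ⟨Q × N × Q, inferInstance, (q0, S, qf),
    {m' | m'.map erRule ∈ M ∧ ∀ r ∈ m', GoodRule δ r}, ?_, fun w => ?_⟩
  · have : Finite (Symbol T (Q × N × Q)) := finite_symbol
    have h1 : ∀ r : ContextFreeRule T N,
        {r' : ContextFreeRule T (Q × N × Q) | erRule r' = r}.Finite := by
      intro r
      have h2 := finite_fiber_map (er : Symbol T (Q × N × Q) → Symbol T N)
        (fun b => Set.toFinite _) r.output
      refine ((Set.finite_univ (α := Q × N × Q)).image2 ContextFreeRule.mk h2).subset ?_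
      rintro r' rfl
      exact ⟨r'.input, Set.mem_univ _, r'.output, rfl, rfl⟩
    refine (hM.biUnion fun m _ => finite_fiber_map erRule h1 m).subset ?_
    rintro m' ⟨h2, _⟩
    exact Set.mem_biUnion h2 rfl
  · change (w ∈ L ∧ w.foldl δ q0 = qf) ↔ _
    rw [hL]
    constructor
    · rintro ⟨h1, h2⟩
      have key : ∀ x, ReflTransGen (fun x y => ∃ m ∈ M, MatStep m x y) x
          (w.map Symbol.terminal) → ∃ x' : List (Symbol T (Q × N × Q)), x'.map er = x ∧
          Ann δ q0 x' qf ∧ ReflTransGen (fun x y => ∃ m ∈ {m' | List.map erRule m' ∈ M ∧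
            ∀ r ∈ m', GoodRule δ r}, MatStep m x y) x' (w.map Symbol.terminal) := by
        intro x hx
        induction hx using ReflTransGen.head_induction_on with
        | refl => exact ⟨_, map_er_terminal w, ann_terminal.mpr h2, ReflTransGen.refl⟩
        | head hs _ ih =>
          obtain ⟨y', h3, h4, h5⟩ := ih
          obtain ⟨m, hm, hs⟩ := hs
          obtain ⟨m', x', h6, h7, h8, h9, h10⟩ := matStep_up m hs h3 h4
          exact ⟨x', h8, h9, ReflTransGen.head ⟨m', ⟨h7 ▸ hm, h6⟩, h10⟩ h5⟩
      obtain ⟨x', h3, h4, h5⟩ := key _ h1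
      obtain ⟨a, l, rfl, h6, h7⟩ := List.map_eq_cons_iff.mp h3
      have h8 : l = [] := by simpa using h7
      subst h8
      cases h4 with
      | term _ => simp [er] at h6
      | nt h9 =>
        cases h9
        simp only [er, Symbol.nonterminal.injEq] at h6
        subst h6
        exact h5
    · intro h1
      have key : ∀ y, ReflTransGen (fun x y => ∃ m ∈ {m' | List.map erRule m' ∈ M ∧
            ∀ r ∈ m', GoodRule δ r}, MatStep m x y) [Symbol.nonterminal (q0, S, qf)] y →
          Ann δ q0 y qf ∧ ReflTransGen (fun x y => ∃ m ∈ M, MatStep m x y)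
            [Symbol.nonterminal S] (y.map er) := by
        intro y hy
        induction hy with
        | refl => exact ⟨Ann.nt (Ann.nil _), ReflTransGen.refl⟩
        | tail _ hs ih =>
          obtain ⟨m', ⟨h2, h3⟩, hs⟩ := hs
          obtain ⟨h4, h5⟩ := matStep_down m' h3 hs ih.1
          exact ⟨h4, ih.2.tail ⟨_, h2, h5⟩⟩
      obtain ⟨h2, h3⟩ := key _ h1
      rw [map_er_terminal] at h3
      exact ⟨h3, ann_terminal.mp h2⟩

end triple

end Pool.Agent.MP_99d1ae_lc

end

section

set_option autoImplicit false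

namespace Pool.Agent.MP_99d1ae_lc

open Relation

/-- Rewriting the leftmost occurrence of the nonterminal `A` by `v`. -/
def LRw {T N : Type} (A : N) (v x y : List (Symbol T N)) : Prop :=
  ∃ u w, Symbol.nonterminal A ∉ u ∧ x = u ++ [Symbol.nonterminal A] ++ w ∧ y = u ++ v ++ w

/-- A step of a state-controlled grammar working on leftmost occurrences. -/
def CStep {T N Q : Type} (R : Set (Q × N × List (Symbol T N) × Q)) (E : Set (Q × Q))
    (c c' : Q × List (Symbol T N)) : Prop :=
  (∃ A v, (c.1, A, v, c'.1) ∈ R ∧ LRw A v c.2 c'.2) ∨ ((c.1, c'.1) ∈ E ∧ c.2 = c'.2)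

def mapS {T N N' : Type} (g : N → N') : Symbol T N → Symbol T N'
  | Symbol.terminal t => Symbol.terminal t
  | Symbol.nonterminal A => Symbol.nonterminal (g A)

lemma map_mapS_terminal {T N N' : Type} (g : N → N') (w : List T) :
    (w.map (Symbol.terminal : T → Symbol T N)).map (mapS g) = w.map Symbol.terminal := by
  simp [List.map_map, Function.comp_def, mapS]

lemma eq_of_map_mapS {T N N' : Type} (g : N → N') {x : List (Symbol T N)} {w : List T}
    (h : x.map (mapS g) = w.map Symbol.terminal) : x = w.map Symbol.terminal := by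
  induction x generalizing w with
  | nil => cases w <;> simp_all
  | cons a x ih =>
    cases w with
    | nil => simp at h
    | cons t w =>
      simp only [List.map_cons, List.cons.injEq] at h ⊢
      refine ⟨?_, ih h.2⟩
      cases a with
      | terminal s => simpa [mapS] using h.1
      | nonterminal A => simp [mapS] at h

lemma mem_map_mapS {T N N' : Type} (g : N → N') {x : List (Symbol T N)} {B : N'} :
    Symbol.nonterminal B ∈ x.map (mapS g) ↔ ∃ A, Symbol.nonterminal A ∈ x ∧ g A = B := by
  rw [List.mem_map]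
  constructor
  · rintro ⟨a, ha, h⟩
    cases a with
    | terminal s => simp [mapS] at h
    | nonterminal A => exact ⟨A, ha, by simpa [mapS] using h⟩
  · rintro ⟨A, hA, rfl⟩
    exact ⟨_, hA, rfl⟩

lemma LRw.map {T N N' : Type} (g : N → N') {A : N} (hA : ∀ B, g B = g A → B = A)
    {v x y : List (Symbol T N)} (h : LRw A v x y) :
    LRw (g A) (v.map (mapS g)) (x.map (mapS g)) (y.map (mapS g)) := by
  obtain ⟨u, w, h1, rfl, rfl⟩ := h
  refine ⟨u.map (mapS g), w.map (mapS g), ?_, by simp [mapS], by simp⟩
  rw [mem_map_mapS]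
  rintro ⟨B, hB, h2⟩
  exact h1 (hA B h2 ▸ hB)

lemma LRw.unmap {T N N' : Type} (g : N → N') {A : N} (hA : ∀ B, g B = g A → B = A)
    {v x : List (Symbol T N)} {y' : List (Symbol T N')}
    (h : LRw (g A) (v.map (mapS g)) (x.map (mapS g)) y') :
    ∃ y, LRw A v x y ∧ y' = y.map (mapS g) := by
  obtain ⟨u', w', h1, h2, rfl⟩ := h
  obtain ⟨x1, w, rfl, h3, rfl⟩ := List.map_eq_append_iff.mp h2
  obtain ⟨u, b, rfl, rfl, h4⟩ := List.map_eq_append_iff.mp h3
  obtain ⟨a, l, rfl, h5, h6⟩ := List.map_eq_cons_iff.mp h4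
  have h7 : l = [] := by simpa using h6
  subst h7
  cases a with
  | terminal s => simp [mapS] at h5
  | nonterminal B =>
    have h8 : B = A := hA B (by simpa [mapS] using h5)
    subst h8
    refine ⟨u ++ v ++ w, ⟨u, w, fun h9 => h1 ((mem_map_mapS g).mpr ⟨B, h9, rfl⟩), rfl, rfl⟩, by simp⟩

lemma last_split {α : Type} {p w l : List α} {b c : α} (h : p ++ [b] ++ w = l ++ [c])
    (hb : b ∉ l) : w = [] ∧ p = l ∧ b = c := by
  rcases List.eq_nil_or_concat w with rfl | ⟨w', d, rfl⟩
  · simp only [List.append_nil] at h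
    obtain ⟨h1, h2⟩ := List.append_inj' h rfl
    exact ⟨rfl, h1, by simpa using h2⟩
  · exfalso
    rw [List.concat_eq_append, ← List.append_assoc] at h
    obtain ⟨h1, _⟩ := List.append_inj' h rfl
    apply hb; rw [← h1]; simp

lemma last_split' {α : Type} {p w l : List α} {b c : α} (h : p ++ [b] ++ w = l ++ [c])
    (hb : b ≠ c) : ∃ w', w = w' ++ [c] ∧ l = p ++ [b] ++ w' := by
  rcases List.eq_nil_or_concat w with rfl | ⟨w', d, rfl⟩
  · simp only [List.append_nil] at h
    obtain ⟨_, h2⟩ := List.append_inj' h rfl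
    exact absurd (by simpa using h2) hb
  · rw [List.concat_eq_append, ← List.append_assoc] at h
    obtain ⟨h1, h2⟩ := List.append_inj' h rfl
    refine ⟨w', ?_, h1.symm⟩
    rw [List.concat_eq_append, h2]

section finite

variable {T N Q : Type}

def cmp2 : Option N ⊕ Q → Fin 2
  | Sum.inl _ => 0
  | Sum.inr _ => 1

def lft : N → Option N ⊕ Q := fun A => Sum.inl (some A)

def enc (c : Q × List (Symbol T N)) : List (Symbol T (Option N ⊕ Q)) :=
  c.2.map (mapS lft) ++ [Symbol.nonterminal (Sum.inl none)] ++ [Symbol.nonterminal (Sum.inr c.1)]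

def emRules (R : Set (Q × N × List (Symbol T N) × Q)) (E : Set (Q × Q)) (qf : Q) :
    Set ((Fin 2 → Option N ⊕ Q) × (Fin 2 → List (Symbol T (Option N ⊕ Q)))) :=
  (fun r => (![lft r.2.1, Sum.inr r.1],
    ![r.2.2.1.map (mapS lft), [Symbol.nonterminal (Sum.inr r.2.2.2)]])) '' R ∪
  (fun e => (![Sum.inl none, Sum.inr e.1],
    ![[Symbol.nonterminal (Sum.inl none)], [Symbol.nonterminal (Sum.inr e.2)]])) '' E ∪
  {(![Sum.inl none, Sum.inr qf], ![[], []])}

lemma over_lft (x : List (Symbol T N)) :
    Over (cmp2 (N := N) (Q := Q)) 0 (x.map (mapS lft)) := by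
  intro A hA
  obtain ⟨B, _, rfl⟩ := (mem_map_mapS _).mp hA
  rfl

lemma inr_not_mem (x : List (Symbol T N)) (q : Q) :
    Symbol.nonterminal (Sum.inr q) ∉ x.map (mapS (lft (Q := Q))) := by
  rw [mem_map_mapS]; rintro ⟨B, _, h⟩; cases h

lemma none_not_mem (x : List (Symbol T N)) :
    Symbol.nonterminal (Sum.inl none) ∉ x.map (mapS (lft (Q := Q))) := by
  rw [mem_map_mapS]; rintro ⟨B, _, h⟩; cases h

lemma lft_inj (A B : N) (h : (lft B : Option N ⊕ Q) = lft A) : B = A := by
  simpa [lft] using h

lemma step2_intro {N' : Type} {comp : N' → Fin 2}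
    {rules : Set ((Fin 2 → N') × (Fin 2 → List (Symbol T N')))} {A B : N'}
    {v v' u w : List (Symbol T N')} (hr : (![A, B], ![v, v']) ∈ rules)
    (h1 : Over comp 0 (u ++ w)) (h2 : Symbol.nonterminal A ∉ u) :
    Step1 comp rules (u ++ [Symbol.nonterminal A] ++ w ++ [Symbol.nonterminal B])
      (u ++ v ++ w ++ v') := by
  refine ⟨_, hr, ![u, []], ![w, []], ?_, ?_, ?_⟩
  · intro i
    fin_cases i
    · exact ⟨h1, h2⟩
    · exact ⟨fun A hA => by simp at hA, by simp⟩
  · simp [List.ofFn_succ]
  · simp [List.ofFn_succ]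

lemma step2_elim {N' : Type} {comp : N' → Fin 2}
    {rules : Set ((Fin 2 → N') × (Fin 2 → List (Symbol T N')))} {x y : List (Symbol T N')}
    (h : Step1 comp rules x y) : ∃ r ∈ rules, ∃ u w w', Symbol.nonterminal (r.1 0) ∉ u ∧
      x = u ++ [Symbol.nonterminal (r.1 0)] ++ w ++ [Symbol.nonterminal (r.1 1)] ++ w' ∧
      y = u ++ r.2 0 ++ w ++ r.2 1 ++ w' := by
  obtain ⟨r, hr, u, w, h1, rfl, rfl⟩ := h
  refine ⟨r, hr, u 0, w 0 ++ u 1, w 1, (h1 0).2, ?_, ?_⟩
  · simp [List.ofFn_succ]
  · simp [List.ofFn_succ]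

lemma enc_step {R : Set (Q × N × List (Symbol T N) × Q)} {E : Set (Q × Q)} (qf : Q)
    {c c' : Q × List (Symbol T N)} (h : CStep R E c c') :
    Step1 cmp2 (emRules R E qf) (enc c) (enc c') := by
  obtain ⟨q, x⟩ := c
  obtain ⟨q', y⟩ := c'
  rcases h with ⟨A, v, hr, u, w, h1, h2, h3⟩ | ⟨he, h⟩
  · simp only at hr h2 h3
    subst h2 h3
    have := step2_intro (comp := cmp2) (rules := emRules R E qf) (A := lft A) (B := Sum.inr q)
      (v := v.map (mapS lft)) (v' := [Symbol.nonterminal (Sum.inr q')]) (u := u.map (mapS lft))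
      (w := w.map (mapS lft) ++ [Symbol.nonterminal (Sum.inl none)])
      (Or.inl (Or.inl ⟨_, hr, rfl⟩))
      (by
        intro B hB
        rw [← List.append_assoc, ← List.map_append, List.mem_append] at hB
        rcases hB with hB | hB
        · exact over_lft _ B hB
        · simp only [List.mem_singleton, Symbol.nonterminal.injEq] at hB
          subst hB; rfl)
      (by
        rw [mem_map_mapS]
        rintro ⟨B, hB, h⟩
        exact h1 (lft_inj _ _ h ▸ hB))
    simpa [enc, mapS] using this
  · simp only at he h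
    subst h
    have := step2_intro (comp := cmp2) (rules := emRules R E qf) (A := Sum.inl none)
      (B := Sum.inr q) (v := [Symbol.nonterminal (Sum.inl none)])
      (v' := [Symbol.nonterminal (Sum.inr q')]) (u := x.map (mapS lft)) (w := [])
      (Or.inl (Or.inr ⟨_, he, rfl⟩)) (by simpa using over_lft x) (none_not_mem x)
    simpa [enc] using this

lemma enc_final (R : Set (Q × N × List (Symbol T N) × Q)) (E : Set (Q × Q)) (qf : Q)
    (x : List (Symbol T N)) :
    Step1 cmp2 (emRules R E qf) (enc (qf, x)) (x.map (mapS lft)) := by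
  have := step2_intro (comp := cmp2) (rules := emRules R E qf) (A := Sum.inl none)
    (B := Sum.inr qf) (v := []) (v' := []) (u := x.map (mapS lft)) (w := [])
    (Or.inr rfl) (by simpa using over_lft x) (none_not_mem x)
  simpa [enc] using this

lemma emRules_snd {R : Set (Q × N × List (Symbol T N) × Q)} {E : Set (Q × Q)} {qf : Q}
    {r : (Fin 2 → Option N ⊕ Q) × (Fin 2 → List (Symbol T (Option N ⊕ Q)))}
    (hr : r ∈ emRules R E qf) : ∃ q, r.1 1 = Sum.inr q := by
  rcases hr with (⟨r, _, rfl⟩ | ⟨e, _, rfl⟩) | rfl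
  · exact ⟨_, rfl⟩
  · exact ⟨_, rfl⟩
  · exact ⟨_, rfl⟩

lemma step_enc {R : Set (Q × N × List (Symbol T N) × Q)} {E : Set (Q × Q)} {qf : Q}
    {c : Q × List (Symbol T N)} {y : List (Symbol T (Option N ⊕ Q))}
    (h : Step1 cmp2 (emRules R E qf) (enc c) y) :
    (∃ c', CStep R E c c' ∧ y = enc c') ∨ (c.1 = qf ∧ y = c.2.map (mapS lft)) := by
  obtain ⟨q, x⟩ := c
  obtain ⟨r, hr, u, w, w', h1, h2, rfl⟩ := step2_elim h
  obtain ⟨q1, hq1⟩ := emRules_snd hr
  have h3 : Symbol.nonterminal (r.1 1) ∉
      x.map (mapS lft) ++ [Symbol.nonterminal (Sum.inl none)] := by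
    rw [hq1, List.mem_append]
    rintro (h | h)
    · exact inr_not_mem _ _ h
    · simp at h
  obtain ⟨rfl, h4, h5⟩ := last_split h2.symm h3
  rcases hr with (⟨⟨q2, A, v, q'⟩, hr, rfl⟩ | ⟨⟨q2, q'⟩, he, rfl⟩) | rfl
  · left
    have h6 : q2 = q := by simpa using h5
    subst h6
    obtain ⟨w2, rfl, h7⟩ := last_split' h4 (by simp [lft])
    obtain ⟨y, h8, h9⟩ := LRw.unmap (lft (Q := Q)) (lft_inj A) (v := v) (x := x)
      (y' := u ++ v.map (mapS lft) ++ w2) ⟨u, w2, h1, h7, rfl⟩
    refine ⟨(q2, y).map (fun _ => q') id, Or.inl ⟨A, v, hr, h8⟩, ?_⟩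
    simp only [enc, Prod.map, id]
    rw [← h9]; simp
  · left
    have h6 : q2 = q := by simpa using h5
    subst h6
    obtain ⟨rfl, rfl, _⟩ := last_split h4 (none_not_mem x)
    exact ⟨(q', x), Or.inr ⟨he, rfl⟩, by simp [enc]⟩
  · right
    have h6 : qf = q := by simpa using h5
    obtain ⟨rfl, rfl, _⟩ := last_split h4 (none_not_mem x)
    exact ⟨h6.symm, by simp⟩

theorem isEM1_of_clg_fin [Finite N] [Finite Q] {R : Set (Q × N × List (Symbol T N) × Q)}
    {E : Set (Q × Q)} (hR : R.Finite) (q0 qf : Q) (x0 : List (Symbol T N)) :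
    IsEM1 ({w | ReflTransGen (CStep R E) (q0, x0) (qf, w.map Symbol.terminal)} : Language T) := by
  refine ⟨2, Option N ⊕ Q, inferInstance, cmp2, {enc (q0, x0)}, emRules R E qf, by norm_num,
    Set.finite_singleton _, ((hR.image _).union ((Set.toFinite E).image _)).union
      (Set.finite_singleton _), ?_, ?_, fun w => ?_⟩
  · rintro v rfl
    right
    refine ⟨![x0.map (mapS lft) ++ [Symbol.nonterminal (Sum.inl none)],
      [Symbol.nonterminal (Sum.inr q0)]], by simp [enc, List.ofFn_succ], fun i => ?_⟩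
    fin_cases i
    · refine ⟨fun B hB => ?_, Sum.inl none, by simp⟩
      rcases List.mem_append.mp hB with hB | hB
      · exact over_lft _ B hB
      · simp only [List.mem_singleton, Symbol.nonterminal.injEq] at hB
        subst hB; rfl
    · refine ⟨fun B hB => ?_, Sum.inr q0, by simp⟩
      have : B = Sum.inr q0 := by simpa using hB
      subst this; rfl
  · intro r hr i
    rcases hr with (⟨r, _, rfl⟩ | ⟨e, _, rfl⟩) | rfl
    · fin_cases i
      · exact ⟨rfl, over_lft _⟩
      · refine ⟨rfl, fun B hB => ?_⟩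
        have : B = Sum.inr r.2.2.2 := by simpa using hB
        subst this; rfl
    · fin_cases i
      · refine ⟨rfl, fun B hB => ?_⟩
        have : B = Sum.inl none := by simpa using hB
        subst this; rfl
      · refine ⟨rfl, fun B hB => ?_⟩
        have : B = Sum.inr e.2 := by simpa using hB
        subst this; rfl
    · fin_cases i
      · exact ⟨rfl, fun B hB => by simp at hB⟩
      · exact ⟨rfl, fun B hB => by simp at hB⟩
  · change ReflTransGen (CStep R E) (q0, x0) (qf, w.map Symbol.terminal) ↔ _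
    constructor
    · intro h
      refine ⟨_, rfl, ?_⟩
      have h1 := rtg_lift enc (fun a b hab => enc_step qf hab) h
      have h2 := enc_final R E qf (w.map Symbol.terminal)
      rw [map_mapS_terminal] at h2
      exact h1.tail h2
    · rintro ⟨v, rfl, h⟩
      have key : ∀ y, ReflTransGen (Step1 cmp2 (emRules R E qf)) (enc (q0, x0)) y →
          (∃ c, ReflTransGen (CStep R E) (q0, x0) c ∧ y = enc c) ∨
          (∃ x, ReflTransGen (CStep R E) (q0, x0) (qf, x) ∧ y = x.map (mapS lft)) := by
        intro y hy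
        induction hy with
        | refl => exact Or.inl ⟨_, ReflTransGen.refl, rfl⟩
        | tail _ hs ih =>
          rcases ih with ⟨c, h1, rfl⟩ | ⟨x, h1, rfl⟩
          · rcases step_enc hs with ⟨c', h2, rfl⟩ | ⟨h2, rfl⟩
            · exact Or.inl ⟨c', h1.tail h2, rfl⟩
            · exact Or.inr ⟨c.2, h2 ▸ h1, rfl⟩
          · exfalso
            obtain ⟨r, hr, u, w, w', _, h2, _⟩ := step2_elim hs
            obtain ⟨q1, hq1⟩ := emRules_snd hr
            apply inr_not_mem x q1
            rw [h2, hq1]; simp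
      rcases key _ h with ⟨c, _, h2⟩ | ⟨x, h1, h2⟩
      · exfalso
        have : Symbol.nonterminal (Sum.inl none) ∈ enc c := by simp [enc]
        rw [← h2] at this
        simp at this
      · rw [eq_of_map_mapS _ h2.symm] at h1
        exact h1

end finite

open Classical in
noncomputable def shrink {α : Type} (F : Set α) (a : α) : Option F :=
  if h : a ∈ F then some ⟨a, h⟩ else none

lemma shrink_inj {α : Type} {F : Set α} {a : α} (ha : a ∈ F) (b : α)
    (h : shrink F b = shrink F a) : b = a := by
  unfold shrink at h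
  rw [dif_pos ha] at h
  split_ifs at h with hb
  simpa using h

theorem isEM1_of_clg {T N Q : Type} {R : Set (Q × N × List (Symbol T N) × Q)}
    {E : Set (Q × Q)} (hR : R.Finite) (hE : E.Finite) (q0 qf : Q) (x0 : List (Symbol T N)) :
    IsEM1 ({w | ReflTransGen (CStep R E) (q0, x0) (qf, w.map Symbol.terminal)} : Language T) := by
  set FN : Set N := (fun r => r.2.1) '' R with hFN
  set FQ : Set Q := (fun r => r.1) '' R ∪ (fun e => e.1) '' E ∪ {qf} with hFQ
  have : Finite FN := (hR.image _).to_subtype
  have : Finite FQ := (((hR.image _).union (hE.image _)).union (Set.finite_singleton _)).to_subtype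
  let g := shrink FN
  let h := shrink FQ
  let R' : Set (Option FQ × Option FN × List (Symbol T (Option FN)) × Option FQ) :=
    (fun r => (h r.1, g r.2.1, r.2.2.1.map (mapS g), h r.2.2.2)) '' R
  let E' : Set (Option FQ × Option FQ) := (fun e => (h e.1, h e.2)) '' E
  have H := isEM1_of_clg_fin (R := R') (E := E') (hR.image _) (h q0) (h qf) (x0.map (mapS g))
  convert H using 1
  ext w
  change ReflTransGen (CStep R E) (q0, x0) (qf, w.map Symbol.terminal) ↔
    ReflTransGen (CStep R' E') (h q0, x0.map (mapS g)) (h qf, w.map Symbol.terminal)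
  constructor
  · intro h1
    have h2 := rtg_lift (p := CStep R' E')
      (fun c : Q × List (Symbol T N) => (h c.1, c.2.map (mapS g))) (by
        rintro ⟨q, x⟩ ⟨q', y⟩ (⟨A, v, hr, h3⟩ | ⟨he, h3⟩)
        · exact Or.inl ⟨g A, v.map (mapS g), ⟨_, hr, rfl⟩,
            h3.map g (shrink_inj (F := FN) ⟨_, hr, rfl⟩)⟩
        · exact Or.inr ⟨⟨_, he, rfl⟩, congrArg (List.map (mapS g)) h3⟩) h1
    simpa only [map_mapS_terminal] using h2
  · intro h1
    have key : ∀ c', ReflTransGen (CStep R' E') (h q0, x0.map (mapS g)) c' →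
        ∃ c, ReflTransGen (CStep R E) (q0, x0) c ∧ c' = (h c.1, c.2.map (mapS g)) := by
      intro c' hc'
      induction hc' with
      | refl => exact ⟨_, ReflTransGen.refl, rfl⟩
      | @tail b c' _ hs ih =>
        obtain ⟨⟨q, x⟩, h2, rfl⟩ := ih
        obtain ⟨q'', y'⟩ := c'
        rcases hs with ⟨A', v', ⟨⟨q1, A, v, q2⟩, hr, h3⟩, h4⟩ | ⟨⟨⟨q1, q2⟩, he, h3⟩, h4⟩
        · simp only [Prod.mk.injEq] at h3 h4
          obtain ⟨e1, rfl, rfl, rfl⟩ := h3
          have e2 : q = q1 := shrink_inj (F := FQ) (Or.inl (Or.inl ⟨_, hr, rfl⟩)) _ e1.symm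
          subst e2
          obtain ⟨y, h5, rfl⟩ := LRw.unmap g (shrink_inj (F := FN) ⟨_, hr, rfl⟩) h4
          exact ⟨(q2, y), h2.tail (Or.inl ⟨A, v, hr, h5⟩), rfl⟩
        · simp only [Prod.mk.injEq] at h3 h4
          obtain ⟨e1, rfl⟩ := h3
          have e2 : q = q1 := shrink_inj (F := FQ) (Or.inl (Or.inr ⟨_, he, rfl⟩)) _ e1.symm
          subst e2 h4
          exact ⟨(q2, x), h2.tail (Or.inr ⟨he, rfl⟩), rfl⟩
    obtain ⟨⟨q, x⟩, h2, h3⟩ := key _ h1
    simp only [Prod.mk.injEq] at h3
    have e1 : q = qf := shrink_inj (F := FQ) (Or.inr rfl) _ h3.1.symm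
    rw [e1, eq_of_map_mapS _ h3.2.symm] at h2
    exact h2

end Pool.Agent.MP_99d1ae_lc

end

section

set_option autoImplicit false

namespace Pool.Agent.MP_99d1ae_lc

open Relation

variable {T N : Type}

def matRulesAt : List (ContextFreeRule T N) →
    Set (List (ContextFreeRule T N) × (N × Bool) × List (Symbol T (N × Bool)) ×
      List (ContextFreeRule T N))
  | [] => ∅
  | r :: m => {(r :: m, (r.input, false), r.output.map (mapS fun B => (B, false)), m),
      (r :: m, (r.input, false), [Symbol.nonterminal (r.input, true)], r :: m),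
      (m, (r.input, true), [Symbol.nonterminal (r.input, false)], m)}

def matRules (M : Set (List (ContextFreeRule T N))) :
    Set (List (ContextFreeRule T N) × (N × Bool) × List (Symbol T (N × Bool)) ×
      List (ContextFreeRule T N)) :=
  ⋃ m ∈ M, ⋃ q ∈ {q | q ∈ m.tails}, matRulesAt q

lemma matRules_finite {M : Set (List (ContextFreeRule T N))} (hM : M.Finite) :
    (matRules M).Finite := by
  refine hM.biUnion fun m _ => (List.finite_toSet _).biUnion fun q _ => ?_
  cases q with
  | nil => exact Set.finite_empty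
  | cons r m => exact ((Set.finite_singleton _).insert _).insert _

lemma mem_matRules {M : Set (List (ContextFreeRule T N))} {m q : List (ContextFreeRule T N)}
    (hm : m ∈ M) (hq : q <:+ m) : matRulesAt q ⊆ matRules M := fun _ h =>
  Set.mem_biUnion hm (Set.mem_biUnion ((List.mem_tails _ _).mpr hq) h)

open Classical in
noncomputable def mark (A : N) (b : Bool) (B : N) : N × Bool := (B, if B = A then b else false)

lemma mark_false (A : N) : mark A false = fun B => (B, false) := by
  funext B; simp [mark]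

lemma toggle_all {Q : Type} {R : Set (Q × (N × Bool) × List (Symbol T (N × Bool)) × Q)}
    {E : Set (Q × Q)} {q : Q} {A : N} {b : Bool}
    (hr : (q, (A, b), [Symbol.nonterminal (A, !b)], q) ∈ R) (s : List (Symbol T (N × Bool))) :
    ∀ (p : List (Symbol T N)) (l : List (Symbol T (N × Bool))), Symbol.nonterminal (A, b) ∉ l →
      ReflTransGen (CStep R E) (q, l ++ p.map (mapS (mark A b)) ++ s)
        (q, l ++ p.map (mapS (mark A (!b))) ++ s)
  | [], l, _ => ReflTransGen.refl
  | Symbol.terminal t :: p, l, hl => by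
    have := toggle_all (E := E) hr s p (l ++ [Symbol.terminal t]) (by simpa using hl)
    simpa [mapS] using this
  | Symbol.nonterminal B :: p, l, hl => by
    by_cases hB : B = A
    · subst hB
      have h1 := toggle_all (E := E) hr s p (l ++ [Symbol.nonterminal (B, !b)])
        (by simpa using hl)
      refine ReflTransGen.head (b := (q, l ++ [Symbol.nonterminal (B, !b)] ++
        p.map (mapS (mark B b)) ++ s)) (Or.inl ⟨(B, b), _, hr, l, p.map (mapS (mark B b)) ++ s,
          hl, ?_, ?_⟩) ?_
      · simp [mapS, mark]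
      · simp
      · simpa [mapS, mark] using h1
    · have := toggle_all (E := E) hr s p (l ++ [Symbol.nonterminal (B, false)])
        (by simp [hl, Ne.symm hB])
      simpa [mapS, mark, hB] using this

lemma mark_not_mem (A : N) (p : List (Symbol T N)) :
    Symbol.nonterminal (A, false) ∉ p.map (mapS (mark A true)) := by
  rw [mem_map_mapS]
  rintro ⟨B, _, h⟩
  simp only [mark, Prod.mk.injEq] at h
  obtain ⟨rfl, h⟩ := h
  simp at h

lemma sim_rewrite {M : Set (List (ContextFreeRule T N))} {E : Set (List (ContextFreeRule T N) ×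
    List (ContextFreeRule T N))} {m q : List (ContextFreeRule T N)} {r : ContextFreeRule T N}
    (hm : m ∈ M) (hq : r :: q <:+ m) {x y : List (Symbol T N)} (h : r.Rewrites x y) :
    ReflTransGen (CStep (matRules M) E) (r :: q, x.map (mapS fun B => (B, false)))
      (q, y.map (mapS fun B => (B, false))) := by
  obtain ⟨p, s, rfl, rfl⟩ := h.exists_parts
  have hs := mem_matRules hm hq
  have h1 := toggle_all (R := matRules M) (E := E) (q := r :: q) (A := r.input) (b := false)
    (hs (Or.inr (Or.inl rfl))) ([Symbol.nonterminal (r.input, false)] ++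
      s.map (mapS fun B => (B, false))) p [] (by simp)
  have h2 := toggle_all (R := matRules M) (E := E) (q := q) (A := r.input) (b := true)
    (hs (Or.inr (Or.inr rfl))) (r.output.map (mapS fun B => (B, false)) ++
      s.map (mapS fun B => (B, false))) p [] (by simp)
  simp only [Bool.not_false, Bool.not_true, mark_false, List.nil_append] at h1 h2
  have h3 : CStep (matRules M) E (r :: q, p.map (mapS (mark r.input true)) ++
      ([Symbol.nonterminal (r.input, false)] ++ s.map (mapS fun B => (B, false))))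
      (q, p.map (mapS (mark r.input true)) ++ (r.output.map (mapS fun B => (B, false)) ++
      s.map (mapS fun B => (B, false)))) :=
    Or.inl ⟨(r.input, false), _, hs (Or.inl rfl), _, s.map (mapS fun B => (B, false)),
      mark_not_mem _ p, by simp, by simp⟩
  have h4 := (h1.tail h3).trans h2
  simpa [mapS] using h4

lemma sim_matStep {M : Set (List (ContextFreeRule T N))} {E : Set (List (ContextFreeRule T N) ×
    List (ContextFreeRule T N))} {m : List (ContextFreeRule T N)} (hm : m ∈ M) :
    ∀ (q : List (ContextFreeRule T N)), q <:+ m → ∀ {x y : List (Symbol T N)}, MatStep q x y →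
    ReflTransGen (CStep (matRules M) E) (q, x.map (mapS fun B => (B, false)))
      ([], y.map (mapS fun B => (B, false)))
  | [], _, x, y, h => by
    have h' : x = y := h
    subst h'
    exact ReflTransGen.refl
  | r :: q, hq, x, y, h => by
    obtain ⟨z, h1, h2⟩ := h
    exact (sim_rewrite hm hq h1).trans
      (sim_matStep hm q ((List.suffix_cons r q).trans hq) h2)

lemma map_fst_lift (v : List (Symbol T N)) :
    (v.map (mapS fun B => (B, false))).map (mapS Prod.fst) = v := by
  rw [List.map_map]
  conv_rhs => rw [← List.map_id v]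
  congr 1
  funext a
  cases a <;> rfl

theorem isEM1_of_matrix' (S : N) {M : Set (List (ContextFreeRule T N))} (hM : M.Finite)
    {L : Language T} (hL : ∀ w, w ∈ L ↔ Relation.ReflTransGen (fun x y => ∃ m ∈ M, MatStep m x y)
      [Symbol.nonterminal S] (w.map Symbol.terminal)) : IsEM1 L := by
  have H := isEM1_of_clg (R := matRules M) (E := (fun m => ([], m)) '' M) (matRules_finite hM)
    (hM.image _) [] [] [Symbol.nonterminal (S, false)]
  convert H using 1
  ext w
  rw [hL]
  change _ ↔ ReflTransGen (CStep (matRules M) ((fun m => ([], m)) '' M))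
    ([], [Symbol.nonterminal (S, false)]) ([], w.map Symbol.terminal)
  constructor
  · intro h
    have h1 := rtg_lift' (p := CStep (matRules M) ((fun m => ([], m)) '' M))
      (fun x : List (Symbol T N) => (([] : List (ContextFreeRule T N)),
        x.map (mapS fun B => (B, false)))) (by
        rintro x y ⟨m, hm, h2⟩
        exact ReflTransGen.head (b := (m, x.map (mapS fun B => (B, false))))
          (Or.inr ⟨⟨m, hm, rfl⟩, rfl⟩) (sim_matStep hm m List.suffix_rfl h2)) h
    simp only [map_mapS_terminal] at h1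
    exact h1
  · intro h
    have key : ∀ c, ReflTransGen (CStep (matRules M) ((fun m => ([], m)) '' M))
        ([], [Symbol.nonterminal (S, false)]) c → ∀ z, MatStep c.1 (c.2.map (mapS Prod.fst)) z →
        ReflTransGen (fun x y => ∃ m ∈ M, MatStep m x y) [Symbol.nonterminal S] z := by
      intro c hc
      induction hc with
      | refl =>
        intro z hz
        have h' : [Symbol.nonterminal S] = z := hz
        rw [← h']
      | @tail b c _ hs ih =>
        obtain ⟨q, x⟩ := b
        obtain ⟨q', y⟩ := c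
        intro z hz
        rcases hs with ⟨A, v, hr, u, w, _, h2, h3⟩ | ⟨⟨m, hm, h2⟩, h3⟩
        · simp only at hr h2 h3 hz ih
          subst h2 h3
          simp only [matRules, Set.mem_iUnion] at hr
          obtain ⟨m, _, q1, _, hr⟩ := hr
          cases q1 with
          | nil => exact absurd hr (Set.notMem_empty _)
          | cons r m' =>
            rcases hr with hr | hr | hr
            · simp only [Prod.mk.injEq] at hr
              obtain ⟨rfl, rfl, rfl, rfl⟩ := hr
              refine ih z ⟨_, ?_, hz⟩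
              simp only [List.map_append, map_fst_lift]
              exact r.rewrites_of_exists_parts _ _
            · simp only [Prod.mk.injEq] at hr
              obtain ⟨rfl, rfl, rfl, rfl⟩ := hr
              exact ih z (by simpa [mapS] using hz)
            · simp only [Set.mem_singleton_iff, Prod.mk.injEq] at hr
              obtain ⟨rfl, rfl, rfl, rfl⟩ := hr
              exact ih z (by simpa [mapS] using hz)
        · simp only [Prod.mk.injEq] at h2 h3 hz ih
          obtain ⟨rfl, rfl⟩ := h2
          subst h3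
          exact (ih _ rfl).tail ⟨m, hm, hz⟩
    exact key _ h _ (map_mapS_terminal _ w)

theorem IsMatrix.isEM1 {L : Language T} (h : IsMatrix L) : IsEM1 L := by
  obtain ⟨N, _, S, M, hM, hL⟩ := h
  exact isEM1_of_matrix' S hM hL

end Pool.Agent.MP_99d1ae_lc

end

section

set_option autoImplicit false

namespace Pool.Agent.MP_99d1ae_lc

open Relation Function

inductive Instr
  | inc (r : ℕ)
  | dec (r : ℕ)
  | zero (r : ℕ)
  | skip

abbrev Store := ℕ → ℕ

def Instr.Sem : Instr → Store → Store → Prop
  | .inc r, s, s' => s' = update s r (s r + 1)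
  | .dec r, s, s' => s r ≠ 0 ∧ s' = update s r (s r - 1)
  | .zero r, s, s' => s r = 0 ∧ s' = s
  | .skip, s, s' => s' = s

def MStep {Q : Type} (δ : Set (Q × Instr × Q)) (c c' : Q × Store) : Prop :=
  ∃ i, (c.1, i, c'.1) ∈ δ ∧ i.Sem c.2 c'.2

/-- Relations on stores realised by nondeterministic counter automata with zero tests. -/
def CDef (R : Store → Store → Prop) : Prop :=
  ∃ (Q : Type) (δ : Set (Q × Instr × Q)) (q0 qf : Q), δ.Finite ∧
    ∀ s s', R s s' ↔ ReflTransGen (MStep δ) (q0, s) (qf, s')

lemma CDef.instr (i : Instr) : CDef i.Sem := by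
  refine ⟨Bool, {(false, i, true)}, false, true, Set.finite_singleton _, fun s s' => ⟨?_, ?_⟩⟩
  · intro h
    exact ReflTransGen.single ⟨i, rfl, h⟩
  · intro h
    have key : ∀ c, ReflTransGen (MStep {(false, i, true)}) (false, s) c →
        (c = (false, s)) ∨ (c.1 = true ∧ i.Sem s c.2) := by
      intro c hc
      induction hc with
      | refl => exact Or.inl rfl
      | @tail b c _ hs ih =>
        obtain ⟨j, h1, h2⟩ := hs
        simp only [Set.mem_singleton_iff, Prod.mk.injEq] at h1
        obtain ⟨h3, rfl, h4⟩ := h1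
        rcases ih with rfl | ⟨h5, _⟩
        · exact Or.inr ⟨h4, h2⟩
        · rw [h3] at h5; cases h5
    rcases key _ h with h1 | h1
    · cases h1
    · exact h1.2

lemma CDef.comp {R1 R2 : Store → Store → Prop} (h1 : CDef R1) (h2 : CDef R2) :
    CDef (Relation.Comp R1 R2) := by
  obtain ⟨Q1, δ1, a1, b1, f1, e1⟩ := h1
  obtain ⟨Q2, δ2, a2, b2, f2, e2⟩ := h2
  let δ : Set ((Q1 ⊕ Q2) × Instr × (Q1 ⊕ Q2)) :=
    (fun t => (Sum.inl t.1, t.2.1, Sum.inl t.2.2)) '' δ1 ∪
    (fun t => (Sum.inr t.1, t.2.1, Sum.inr t.2.2)) '' δ2 ∪ {(Sum.inl b1, Instr.skip, Sum.inr a2)}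
  refine ⟨Q1 ⊕ Q2, δ, Sum.inl a1, Sum.inr b2,
    ((f1.image _).union (f2.image _)).union (Set.finite_singleton _), fun s s' => ⟨?_, ?_⟩⟩
  · rintro ⟨t, h1, h2⟩
    have p1 := rtg_lift (p := MStep δ) (fun c : Q1 × Store => (Sum.inl c.1, c.2))
      (fun a b ⟨i, hi, hs⟩ => ⟨i, Or.inl (Or.inl ⟨_, hi, rfl⟩), hs⟩) ((e1 _ _).mp h1)
    have p2 := rtg_lift (p := MStep δ) (fun c : Q2 × Store => (Sum.inr c.1, c.2))
      (fun a b ⟨i, hi, hs⟩ => ⟨i, Or.inl (Or.inr ⟨_, hi, rfl⟩), hs⟩) ((e2 _ _).mp h2)
    exact (p1.tail (c := (Sum.inr a2, t)) ⟨Instr.skip, Or.inr rfl, rfl⟩).trans p2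
  · intro h
    have key : ∀ c, ReflTransGen (MStep δ) (Sum.inl a1, s) c →
        (∃ q, c.1 = Sum.inl q ∧ ReflTransGen (MStep δ1) (a1, s) (q, c.2)) ∨
        (∃ q t, c.1 = Sum.inr q ∧ R1 s t ∧ ReflTransGen (MStep δ2) (a2, t) (q, c.2)) := by
      intro c hc
      induction hc with
      | refl => exact Or.inl ⟨a1, rfl, ReflTransGen.refl⟩
      | @tail b c _ hs ih =>
        obtain ⟨i, h1, h2⟩ := hs
        rcases h1 with (⟨⟨p, j, p'⟩, ht, h1⟩ | ⟨⟨p, j, p'⟩, ht, h1⟩) | h1
        · simp only [Prod.mk.injEq] at h1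
          obtain ⟨h3, rfl, h4⟩ := h1
          rcases ih with ⟨q, h5, h6⟩ | ⟨q, t, h5, _⟩
          · rw [h5] at h3; cases h3
            exact Or.inl ⟨p', h4.symm, h6.tail ⟨_, ht, h2⟩⟩
          · rw [h5] at h3; cases h3
        · simp only [Prod.mk.injEq] at h1
          obtain ⟨h3, rfl, h4⟩ := h1
          rcases ih with ⟨q, h5, _⟩ | ⟨q, t, h5, h6, h7⟩
          · rw [h5] at h3; cases h3
          · rw [h5] at h3; cases h3
            exact Or.inr ⟨p', t, h4.symm, h6, h7.tail ⟨_, ht, h2⟩⟩
        · simp only [Set.mem_singleton_iff, Prod.mk.injEq] at h1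
          obtain ⟨h3, rfl, h4⟩ := h1
          rcases ih with ⟨q, h5, h6⟩ | ⟨q, t, h5, _⟩
          · rw [h5] at h3; cases h3
            have h7 : c.2 = b.2 := h2
            exact Or.inr ⟨a2, b.2, h4, (e1 _ _).mpr h6, h7 ▸ ReflTransGen.refl⟩
          · rw [h5] at h3; cases h3
    rcases key _ h with ⟨q, h1, _⟩ | ⟨q, t, h1, h2, h3⟩
    · cases h1
    · cases h1
      exact ⟨t, h2, (e2 _ _).mpr h3⟩

lemma CDef.star {R : Store → Store → Prop} (h : CDef R) : CDef (ReflTransGen R) := by
  obtain ⟨Q, δ1, a, b, f1, e1⟩ := h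
  let δ : Set (Option Q × Instr × Option Q) :=
    (fun t => (some t.1, t.2.1, some t.2.2)) '' δ1 ∪
      {(none, Instr.skip, some a), (some b, Instr.skip, none)}
  refine ⟨Option Q, δ, none, none, (f1.image _).union (Set.toFinite _), fun s s' => ⟨?_, ?_⟩⟩
  · intro h
    refine rtg_lift' (p := MStep δ) (fun t : Store => ((none : Option Q), t)) ?_ h
    intro t t' h1
    have p1 := rtg_lift (p := MStep δ) (fun c : Q × Store => (some c.1, c.2))
      (fun a b ⟨i, hi, hs⟩ => ⟨i, Or.inl ⟨_, hi, rfl⟩, hs⟩) ((e1 _ _).mp h1)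
    exact (ReflTransGen.head ⟨Instr.skip, Or.inr (Or.inl rfl), rfl⟩ p1).tail
      ⟨Instr.skip, Or.inr (Or.inr rfl), rfl⟩
  · intro h
    have key : ∀ c, ReflTransGen (MStep δ) (none, s) c →
        (c.1 = none ∧ ReflTransGen R s c.2) ∨
        (∃ q t, c.1 = some q ∧ ReflTransGen R s t ∧ ReflTransGen (MStep δ1) (a, t) (q, c.2)) := by
      intro c hc
      induction hc with
      | refl => exact Or.inl ⟨rfl, ReflTransGen.refl⟩
      | @tail b' c _ hs ih =>
        obtain ⟨i, h1, h2⟩ := hs
        rcases h1 with ⟨⟨p, j, p'⟩, ht, h1⟩ | h1 | h1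
        · simp only [Prod.mk.injEq] at h1
          obtain ⟨h3, rfl, h4⟩ := h1
          rcases ih with ⟨h5, _⟩ | ⟨q, t, h5, h6, h7⟩
          · rw [h5] at h3; cases h3
          · rw [h5] at h3; cases h3
            exact Or.inr ⟨p', t, h4.symm, h6, h7.tail ⟨_, ht, h2⟩⟩
        · simp only [Prod.mk.injEq] at h1
          obtain ⟨h3, rfl, h4⟩ := h1
          have h7 : c.2 = b'.2 := h2
          rcases ih with ⟨_, h6⟩ | ⟨q, t, h5, _⟩
          · exact Or.inr ⟨a, b'.2, h4, h6, h7 ▸ ReflTransGen.refl⟩
          · rw [h5] at h3; cases h3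
        · simp only [Set.mem_singleton_iff, Prod.mk.injEq] at h1
          obtain ⟨h3, rfl, h4⟩ := h1
          have h7 : c.2 = b'.2 := h2
          rcases ih with ⟨h5, _⟩ | ⟨q, t, h5, h6, h8⟩
          · rw [h5] at h3; cases h3
          · rw [h5] at h3; cases h3
            exact Or.inl ⟨h4, h7 ▸ h6.tail ((e1 _ _).mpr h8)⟩
    rcases key _ h with ⟨_, h2⟩ | ⟨q, t, h1, _⟩
    · exact h2
    · cases h1

/-- `F` is implemented on the domain `D`. -/
def Impl (D : Store → Prop) (F : Store → Store) : Prop :=
  ∃ R, CDef R ∧ ∀ s, D s → ∀ s', R s s' ↔ s' = F s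

lemma Impl.congr {D D' : Store → Prop} {F F' : Store → Store} (h : Impl D F)
    (hD : ∀ s, D' s → D s) (hF : ∀ s, D' s → F s = F' s) : Impl D' F' := by
  obtain ⟨R, h1, h2⟩ := h
  exact ⟨R, h1, fun s hs s' => by rw [h2 s (hD s hs), hF s hs]⟩

lemma Impl.seq {D D' : Store → Prop} {F G : Store → Store} (h1 : Impl D F) (h2 : Impl D' G)
    (hD : ∀ s, D s → D' (F s)) : Impl D (fun s => G (F s)) := by
  obtain ⟨R1, a1, b1⟩ := h1
  obtain ⟨R2, a2, b2⟩ := h2
  refine ⟨_, a1.comp a2, fun s hs s' => ⟨?_, ?_⟩⟩
  · rintro ⟨t, h1, h2⟩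
    rw [b1 s hs] at h1
    subst h1
    exact (b2 _ (hD s hs) _).mp h2
  · rintro rfl
    exact ⟨F s, (b1 s hs _).mpr rfl, (b2 _ (hD s hs) _).mpr rfl⟩

lemma Impl.skip : Impl (fun _ => True) id :=
  ⟨_, CDef.instr Instr.skip, fun _ _ _ => Iff.rfl⟩

lemma Impl.inc (r : ℕ) : Impl (fun _ => True) (fun s => update s r (s r + 1)) :=
  ⟨_, CDef.instr (Instr.inc r), fun _ _ _ => Iff.rfl⟩

lemma Impl.loop {D D' : Store → Prop} {F H : Store → Store} (r : ℕ) (h : Impl D' F)
    (h1 : ∀ s, D s → s r ≠ 0 → D' (update s r (s r - 1)))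
    (h2 : ∀ s, D s → s r ≠ 0 → D (F (update s r (s r - 1))))
    (h3 : ∀ s, D s → s r ≠ 0 → F (update s r (s r - 1)) r = s r - 1)
    (h4 : ∀ s, D s → s r = 0 → H s = s)
    (h5 : ∀ s, D s → s r ≠ 0 → H s = H (F (update s r (s r - 1)))) : Impl D H := by
  obtain ⟨R, a, b⟩ := h
  refine ⟨_, (((CDef.instr (Instr.dec r)).comp a).star).comp (CDef.instr (Instr.zero r)), ?_⟩
  have key : ∀ n s, D s → s r = n → ∀ s',
      Relation.Comp (ReflTransGen (Relation.Comp (Instr.dec r).Sem R)) (Instr.zero r).Sem s s' ↔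
        s' = H s := by
    intro n
    induction n with
    | zero =>
      intro s hs hn s'
      rw [h4 s hs hn]
      constructor
      · rintro ⟨t, p1, p2, rfl⟩
        rcases p1.cases_head with rfl | ⟨u, ⟨v, ⟨p3, _⟩, _⟩, _⟩
        · rfl
        · exact absurd hn p3
      · rintro rfl
        exact ⟨_, ReflTransGen.refl, hn, rfl⟩
    | succ n ih =>
      intro s hs hn s'
      have hne : s r ≠ 0 := by omega
      rw [h5 s hs hne, ← ih _ (h2 s hs hne) (by rw [h3 s hs hne]; omega)]
      constructor
      · rintro ⟨t, p1, p2, rfl⟩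
        rcases p1.cases_head with rfl | ⟨u, ⟨v, ⟨_, rfl⟩, p4⟩, p5⟩
        · exact absurd p2 hne
        · rw [b _ (h1 s hs hne)] at p4
          subst p4
          exact ⟨_, p5, p2, rfl⟩
      · rintro ⟨t, p1, p2⟩
        exact ⟨t, ReflTransGen.head ⟨_, ⟨hne, rfl⟩, (b _ (h1 s hs hne) _).mpr rfl⟩ p1, p2⟩
  exact fun s hs => key _ s hs rfl

lemma Impl.clear (r : ℕ) : Impl (fun _ => True) (fun s => update s r 0) :=
  Impl.loop r Impl.skip (fun _ _ _ => trivial) (fun _ _ _ => trivial) (fun s _ _ => by simp)
    (fun s _ h => by rw [← h]; simp) (fun s _ _ => by simp)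

lemma Impl.move {a b : ℕ} (hab : a ≠ b) :
    Impl (fun _ => True) (fun s => update (update s b (s b + s a)) a 0) := by
  refine Impl.loop a (Impl.inc b) (fun _ _ _ => trivial) (fun _ _ _ => trivial) ?_ ?_ ?_
  · intro s _ _
    simp [update_apply, hab]
  · intro s _ h
    funext x
    simp only [update_apply]
    split_ifs <;> simp_all
  · intro s _ h
    funext x
    simp only [update_apply]
    split_ifs <;> simp_all
    omega

lemma Impl.move2 {a b c : ℕ} (hab : a ≠ b) (hac : a ≠ c) (hbc : b ≠ c) :
    Impl (fun _ => True) (fun s => update (update (update s b (s b + s a)) c (s c + s a)) a 0) := by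
  refine Impl.loop a ((Impl.inc b).seq (Impl.inc c) (fun _ _ => trivial)) (fun _ _ _ => trivial)
    (fun _ _ _ => trivial) ?_ ?_ ?_
  · intro s _ _
    simp [update_apply, hab, hac]
  · intro s _ h
    funext x
    simp only [update_apply]
    split_ifs <;> simp_all
  · intro s _ h
    funext x
    simp only [update_apply]
    split_ifs <;> simp_all <;> omega

lemma Impl.copy {a o t : ℕ} (hao : a ≠ o) (hat : a ≠ t) (hot : o ≠ t) :
    Impl (fun s => s t = 0) (fun s => update s o (s a)) := by
  have := ((Impl.clear o).seq (Impl.move2 hao hat hot) (fun _ _ => trivial)).seq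
    (Impl.move hat.symm) (fun _ _ => trivial)
  refine this.congr (fun _ _ => trivial) fun s hs => ?_
  funext x
  simp only [update_apply]
  split_ifs <;> simp_all

lemma Impl.clearRange (b : ℕ) : ∀ K : ℕ,
    Impl (fun _ => True) (fun s r => if b ≤ r ∧ r < b + K then 0 else s r)
  | 0 => Impl.skip.congr (fun _ h => h) fun s _ => by
    funext r
    rw [if_neg (by omega)]; rfl
  | K + 1 => by
    refine ((Impl.clearRange b K).seq (Impl.clear (b + K)) (fun _ _ => trivial)).congr
      (fun _ h => h) fun s _ => ?_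
    funext r
    simp only [update_apply]
    split_ifs <;> first | rfl | omega

end Pool.Agent.MP_99d1ae_lc

end

section

set_option autoImplicit false

namespace Pool.Agent.MP_99d1ae_lc

open Relation Function

def ZeroFrom (b : ℕ) (s : Store) : Prop := ∀ r, b ≤ r → s r = 0

def Computes (n : ℕ) (f : List.Vector ℕ n → ℕ) : Prop :=
  ∀ (i : Fin n → ℕ) (o b : ℕ), (∀ j, i j < b) → o < b → (∀ j, i j ≠ o) →
    Impl (ZeroFrom b) (fun s => update s o (f (List.Vector.ofFn fun j => s (i j))))

def iterG (g : ℕ → ℕ → ℕ) : ℕ → ℕ → ℕ → ℕ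
  | 0, _, a => a
  | k + 1, y, a => iterG g k (y + 1) (g y a)

lemma iterG_rec (g : ℕ → ℕ → ℕ) (z : ℕ) : ∀ k y : ℕ,
    iterG g k y (Nat.rec z g y) = Nat.rec z g (y + k)
  | 0, _ => rfl
  | k + 1, y => by
    have := iterG_rec g z k (y + 1)
    rw [show y + (k + 1) = y + 1 + k by omega, ← this]
    rfl

lemma computes_comp {m n : ℕ} {f : List.Vector ℕ n → ℕ} (g : Fin n → List.Vector ℕ m → ℕ)
    (hf : Computes n f) (hg : ∀ k, Computes m (g k)) :
    Computes m (fun a => f (List.Vector.ofFn fun k => g k a)) := by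
  intro i o b hi ho hio
  let G : ℕ → List.Vector ℕ m → ℕ := fun k v => if h : k < n then g ⟨k, h⟩ v else 0
  let P : ℕ → Store → Store := fun K s r =>
    if b ≤ r ∧ r < b + K then G (r - b) (List.Vector.ofFn fun j => s (i j)) else s r
  have hP : ∀ K s j, P K s (i j) = s (i j) := by
    intro K s j
    have := hi j
    simp only [P]
    rw [if_neg (by omega)]
  have ph1 : ∀ K, K ≤ n → Impl (ZeroFrom b) (P K) := by
    intro K
    induction K with
    | zero =>
      intro _
      refine Impl.skip.congr (fun _ _ => trivial) fun s _ => ?_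
      funext r
      simp only [P]
      rw [if_neg (by omega)]; rfl
    | succ K ih =>
      intro hK
      have h1 := hg ⟨K, hK⟩ i (b + K) (b + n) (fun j => by have := hi j; omega) (by omega)
        (fun j => by have := hi j; omega)
      refine ((ih (by omega)).seq h1 ?_).congr (fun _ h => h) fun s _ => ?_
      · intro s hs r hr
        simp only [P]
        rw [if_neg (by omega)]
        exact hs r (by omega)
      · funext r
        simp only [hP, update_apply]
        by_cases h2 : r = b + K
        · subst h2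
          simp only [P, G, if_true]
          rw [if_pos (by omega), dif_pos (by omega)]
          congr 2
          omega
        · rw [if_neg h2]
          simp only [P]
          by_cases h3 : b ≤ r ∧ r < b + K
          · rw [if_pos h3, if_pos (by omega)]
          · rw [if_neg h3, if_neg (by omega)]
  have ph2 := hf (fun k => b + k) o (b + n) (fun k => by have := k.2; omega) (by omega)
    (fun k => by omega)
  refine (((ph1 n le_rfl).seq ph2 ?_).seq (Impl.clearRange b n) (fun _ _ => trivial)).congr
    (fun _ h => h) fun s hs => ?_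
  · intro s hs r hr
    simp only [P]
    rw [if_neg (by omega)]
    exact hs r (by omega)
  · have e1 : (fun k : Fin n => P n s (b + k)) =
        fun k => g k (List.Vector.ofFn fun j => s (i j)) := by
      funext k
      have := k.2
      simp only [P, G]
      rw [if_pos (by omega), dif_pos (by omega)]
      congr 2
      omega
    funext r
    rw [e1]
    simp only [update_apply]
    by_cases h3 : b ≤ r ∧ r < b + n
    · rw [if_pos h3, if_neg (by omega), hs r h3.1]
    · rw [if_neg h3]
      split_ifs with h4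
      · rfl
      · simp only [P]; rw [if_neg h3]

lemma ofFn_cons_cons {n : ℕ} (s : Store) (y o : ℕ) (i : Fin n → ℕ) :
    (List.Vector.ofFn fun j : Fin (n + 2) => s ((Fin.cons y (Fin.cons o i : Fin (n + 1) → ℕ) :
      Fin (n + 2) → ℕ) j)) = s y ::ᵥ s o ::ᵥ List.Vector.ofFn fun j => s (i j) := by
  apply List.Vector.toList_injective
  simp [List.ofFn_succ]

lemma computes_prec {n : ℕ} {f : List.Vector ℕ n → ℕ} {g : List.Vector ℕ (n + 2) → ℕ}
    (hf : Computes n f) (hg : Computes (n + 2) g) :
    Computes (n + 1) (fun v => v.head.rec (f v.tail) fun y IH => g (y ::ᵥ IH ::ᵥ v.tail)) := by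
  intro i o b hi ho hio
  let tl : Store → List.Vector ℕ n := fun s => List.Vector.ofFn fun j => s (i j.succ)
  have ph1 := hf (fun j => i j.succ) o (b + 3) (fun j => by have := hi j.succ; omega) (by omega)
    (fun j => hio _)
  have ph2 : Impl (fun s => s (b + 2) = 0) _ :=
    Impl.copy (a := i 0) (o := b + 1) (t := b + 2) (by have := hi 0; omega)
      (by have := hi 0; omega) (by omega)
  have body1 := hg (Fin.cons b (Fin.cons o fun j => i j.succ)) (b + 2) (b + 3)
    (by
      intro j
      refine Fin.cases ?_ (fun j => Fin.cases ?_ (fun j => ?_) j) j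
      · simp
      · simp; omega
      · have := hi j.succ; simp; omega) (by omega)
    (by
      intro j
      refine Fin.cases ?_ (fun j => Fin.cases ?_ (fun j => ?_) j) j
      · simp
      · simp; omega
      · have := hi j.succ; simp; omega)
  simp only [ofFn_cons_cons] at body1
  have body : Impl (ZeroFrom (b + 2)) (fun s =>
      update (update s o (g (s b ::ᵥ s o ::ᵥ tl s))) b (s b + 1)) := by
    refine (((body1.seq (Impl.clear o) (fun _ _ => trivial)).seq
      (Impl.move (a := b + 2) (b := o) (by omega)) (fun _ _ => trivial)).seq (Impl.inc b)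
      (fun _ _ => trivial)).congr (fun s hs r hr => hs r (by omega)) fun s hs => ?_
    have h0 := hs (b + 2) le_rfl
    funext x
    simp only [update_apply, tl]
    split_ifs <;> first | rfl | omega | simp_all
  have tl_upd : ∀ (s : Store) (r v : ℕ), (b ≤ r ∨ r = o) → tl (update s r v) = tl s := by
    intro s r v hr
    simp only [tl]
    congr 1
    funext j
    have h1 := hi j.succ
    have h2 := hio j.succ
    rw [update_of_ne (by omega)]
  have ph3 : Impl (ZeroFrom (b + 2)) (fun s => update (update (update s o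
      (iterG (fun y a => g (y ::ᵥ a ::ᵥ tl s)) (s (b + 1)) (s b) (s o))) b (s b + s (b + 1)))
      (b + 1) 0) := by
    refine Impl.loop (b + 1) body ?_ ?_ ?_ ?_ ?_
    · intro s hs _ r hr
      rw [update_of_ne (by omega)]; exact hs r hr
    · intro s hs _ r hr
      rw [update_of_ne (by omega), update_of_ne (by omega), update_of_ne (by omega)]
      exact hs r hr
    · intro s _ _
      rw [update_of_ne (by omega), update_of_ne (by omega), update_self]
    · intro s _ h
      funext x
      simp only [update_apply, h, iterG]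
      split_ifs <;> simp_all
    · intro s _ h
      obtain ⟨k, hk⟩ := Nat.exists_eq_succ_of_ne_zero h
      rw [tl_upd _ _ _ (Or.inl le_rfl), tl_upd _ _ _ (Or.inr rfl),
        tl_upd _ _ _ (Or.inl (by omega))]
      have e1 : b ≠ b + 1 := by omega
      have e2 : o ≠ b := by omega
      have e3 : o ≠ b + 1 := by omega
      funext x
      simp only [update_apply, hk, iterG, e1, e2, e3, e1.symm, e2.symm, e3.symm, if_true, if_false,
        Nat.succ_sub_one]
      split_ifs <;> first | rfl | omega
  refine (((ph1.congr (D' := ZeroFrom b) (fun s hs r hr => hs r (by omega)) (fun _ _ => rfl)).seq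
    ph2 ?_).seq ph3 ?_).seq (Impl.clear b) (fun _ _ => trivial) |>.congr (fun _ h => h)
    fun s hs => ?_
  · intro s hs
    show update s o _ (b + 2) = 0
    rw [update_of_ne (by omega)]; exact hs _ (by omega)
  · intro s hs r hr
    rw [update_of_ne (by omega), update_of_ne (by omega)]; exact hs _ (by omega)
  · rw [tl_upd _ _ _ (Or.inl (by omega)), tl_upd _ _ _ (Or.inr rfl)]
    have e1 : b ≠ b + 1 := by omega
    have e2 : o ≠ b := by omega
    have e3 : o ≠ b + 1 := by omega
    have e4 := hio 0
    have e5 := hs b le_rfl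
    have e6 := hs (b + 1) (by omega)
    have e7 : (List.Vector.ofFn fun j => s (i j)).tail = tl s := by
      simp only [tl]; rw [List.Vector.tail_ofFn]
    have e8 : (List.Vector.ofFn fun j => s (i j)).head = s (i 0) := by
      rw [List.Vector.head_ofFn]
    have e9 := iterG_rec (fun y a => g (y ::ᵥ a ::ᵥ tl s)) (f (tl s)) (s (i 0)) 0
    funext x
    simp only [update_apply, e1, e3, e4, e2.symm, e3.symm, e5, e7, e8, if_true, if_false]
    split_ifs with h1 h2 h3 <;>
      first | rfl | omega | (simpa using e9) | (subst_vars; simp_all)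

theorem computes_of_primrec' {n : ℕ} {f : List.Vector ℕ n → ℕ} (h : Nat.Primrec' f) :
    Computes n f := by
  induction h with
  | zero =>
    intro i o b _ _ _
    exact (Impl.clear o).congr (fun _ _ => trivial) fun _ _ => rfl
  | succ =>
    intro i o b hi ho hio
    have h1 := Impl.copy (a := i 0) (o := o) (t := b) (hio 0) (by have := hi 0; omega) (by omega)
    refine (h1.seq (Impl.inc o) (fun _ _ => trivial)).congr (fun s hs => hs b le_rfl) fun s _ => ?_
    simp [List.Vector.head_ofFn]
  | get j =>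
    intro i o b hi ho hio
    have h1 := Impl.copy (a := i j) (o := o) (t := b) (hio j) (by have := hi j; omega) (by omega)
    refine h1.congr (fun s hs => hs b le_rfl) fun s _ => ?_
    simp
  | comp g _ _ hf hg => exact computes_comp g hf hg
  | prec _ _ hf hg => exact computes_prec hf hg

/-- Every projection of a primitive recursive zero set is accepted by a counter automaton that
starts with the input in register `0` and ends with all registers empty. -/
theorem cdef_of_primrec {g : ℕ → ℕ → ℕ} (hg : Primrec₂ g) :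
    ∃ R, CDef R ∧ ∀ n, R (update 0 0 n) 0 ↔ ∃ k, g n k = 0 := by
  have h1 := computes_of_primrec' (Nat.Primrec'.prim_iff₂.mpr hg) ![0, 1] 2 3
    (fun j => by fin_cases j <;> simp) (by omega) (fun j => by fin_cases j <;> simp)
  obtain ⟨R1, a1, b1⟩ := h1
  obtain ⟨R2, a2, b2⟩ := Impl.clearRange 0 2
  refine ⟨_, (CDef.instr (Instr.inc 1)).star.comp (a1.comp ((CDef.instr (Instr.zero 2)).comp a2)),
    fun n => ?_⟩
  have key : ∀ t, ReflTransGen (Instr.inc 1).Sem (update 0 0 n) t ↔
      ∃ k, t = update (update (0 : Store) 0 n) 1 k := by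
    intro t
    constructor
    · intro h
      induction h with
      | refl => exact ⟨0, by funext x; simp only [update_apply]; split_ifs <;> simp_all⟩
      | tail _ hs ih =>
        obtain ⟨k, rfl⟩ := ih
        refine ⟨k + 1, ?_⟩
        rw [show _ = _ from hs]; simp
    · rintro ⟨k, rfl⟩
      induction k with
      | zero =>
        have : update (update (0 : Store) 0 n) 1 0 = update (0 : Store) 0 n := by
          funext x; simp only [update_apply]; split_ifs <;> simp_all
        rw [this]
      | succ k ih => exact ih.tail (by simp [Instr.Sem])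
  have hz : ∀ k, ZeroFrom 3 (update (update (0 : Store) 0 n) 1 k) := by
    intro k r hr
    rw [update_of_ne (by omega), update_of_ne (by omega)]; rfl
  have hv : ∀ k, g (List.Vector.ofFn fun j : Fin 2 =>
        update (update (0 : Store) 0 n) 1 k (![0, 1] j)).head
      (List.Vector.ofFn fun j : Fin 2 =>
        update (update (0 : Store) 0 n) 1 k (![0, 1] j)).tail.head = g n k := by
    intro k
    simp [List.Vector.head_ofFn, List.Vector.tail_ofFn]
  constructor
  · rintro ⟨t, p1, u, p2, v, ⟨p3, _⟩, _⟩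
    obtain ⟨k, rfl⟩ := (key t).mp p1
    rw [b1 _ (hz k)] at p2
    beta_reduce at p2
    rw [hv] at p2
    subst p2
    exact ⟨k, by simpa using p3⟩
  · rintro ⟨k, hk⟩
    refine ⟨_, (key _).mpr ⟨k, rfl⟩, _, (b1 _ (hz k) _).mpr rfl, _, ⟨?_, rfl⟩,
      (b2 _ trivial _).mpr ?_⟩
    · beta_reduce; rw [hv]; simpa using hk
    · beta_reduce; rw [hv, hk]
      funext x
      simp only [update_apply]
      split_ifs <;> first | rfl | omega

end Pool.Agent.MP_99d1ae_lc

end

section

set_option autoImplicit false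

namespace Pool.Agent.MP_99d1ae_lc

open Relation

lemma re_exists {α β : Type} [Primcodable α] [Primcodable β] {p : α → β → Prop}
    (hp : PrimrecRel p) : REPred fun a => ∃ b, p a b := by
  classical
  let q : α → ℕ → Bool := fun a n =>
    ((Encodable.decode (α := β) n).map fun b => decide (p a b)).getD false
  have hq : Primrec₂ q :=
    Primrec.option_getD.comp
      (Primrec.option_map (Primrec.decode.comp Primrec.snd)
        (hp.decide.comp (Primrec.fst.comp Primrec.fst) Primrec.snd).to₂) (Primrec.const false)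
  have h1 : Partrec fun a => Nat.rfind fun n => (Part.some (q a n) : Part Bool) :=
    Partrec.rfind hq.to_comp.partrec₂
  refine h1.dom_re.of_eq fun a => ?_
  rw [Nat.rfind_dom]
  constructor
  · rintro ⟨n, h2, _⟩
    have h3 : q a n = true := by simpa using h2
    simp only [q] at h3
    cases h4 : Encodable.decode (α := β) n with
    | none => simp [h4] at h3
    | some b => exact ⟨b, by simpa [h4] using h3⟩
  · rintro ⟨b, hb⟩
    exact ⟨Encodable.encode b, by simp [q, hb], fun _ => trivial⟩

lemma primrecPred_exists_finite {α ι : Type} [Primcodable α] {s : Set ι} (hs : s.Finite)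
    {p : ι → α → Prop} (hp : ∀ i ∈ s, PrimrecPred (p i)) : PrimrecPred fun a => ∃ i ∈ s, p i a := by
  induction s, hs using Set.Finite.induction_on with
  | empty =>
    refine (Primrec.eq.comp (Primrec.const true) (Primrec.const false)).of_eq fun a => by simp
  | @insert i s _ _ ih =>
    refine ((hp i (Set.mem_insert _ _)).or
      (ih fun j hj => hp j (Set.mem_insert_of_mem _ hj))).of_eq fun a => by simp

lemma primrecPred_forall_finite {α ι : Type} [Primcodable α] [Finite ι]
    {p : ι → α → Prop} (hp : ∀ i, PrimrecPred (p i)) : PrimrecPred fun a => ∀ i, p i a := by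
  refine (primrecPred_exists_finite (Set.finite_univ (α := ι)) (p := fun i a => ¬ p i a)
    fun i _ => (hp i).not).not.of_eq fun a => by simp

lemma primrecPred_dom_finite {α : Type} [Primcodable α] [Finite α] (p : α → Prop) :
    PrimrecPred p := by
  classical
  exact Primrec.primrecPred (Primrec.dom_finite _)

open Classical in
noncomputable def chk {σ W : Type} (p : σ → σ → W → Prop) (x : σ) (l : List (σ × W)) : Option σ :=
  l.foldl (fun o z => o.bind fun c => if p c z.1 z.2 then some z.1 else none) (some x)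

lemma chk_iff {σ W : Type} (p : σ → σ → W → Prop) (x y : σ) :
    ReflTransGen (fun a b => ∃ ω, p a b ω) x y ↔ ∃ l, chk p x l = some y := by
  constructor
  · intro h
    induction h with
    | refl => exact ⟨[], rfl⟩
    | @tail b c _ hs ih =>
      obtain ⟨l, hl⟩ := ih
      obtain ⟨ω, hω⟩ := hs
      refine ⟨l ++ [(c, ω)], ?_⟩
      unfold chk at hl ⊢
      rw [List.foldl_append, hl]
      simp [hω]
  · rintro ⟨l, hl⟩
    induction l using List.reverseRecOn generalizing y with
    | nil =>
      have : x = y := by simpa [chk] using hl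
      rw [this]
    | append_singleton l z ih =>
      unfold chk at hl ih
      rw [List.foldl_append] at hl
      simp only [List.foldl_cons, List.foldl_nil, Option.bind_eq_some_iff] at hl
      obtain ⟨c, h1, h2⟩ := hl
      split_ifs at h2 with h3
      cases h2
      exact (ih c h1).tail ⟨_, h3⟩

lemma chk_primrec {σ W : Type} [Primcodable σ] [Primcodable W] {p : σ → σ → W → Prop}
    (hp : PrimrecPred fun t : σ × σ × W => p t.1 t.2.1 t.2.2) : Primrec₂ (chk p) := by
  classical
  unfold chk
  refine (Primrec.list_foldl (f := fun a : σ × List (σ × W) => a.2) (g := fun a => some a.1)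
    (h := fun _ oz => oz.1.bind fun c => if p c oz.2.1 oz.2.2 then some oz.2.1 else none)
    Primrec.snd (Primrec.option_some.comp Primrec.fst) ?_).of_eq fun a => by congr
  refine Primrec.option_bind (Primrec.fst.comp Primrec.snd) ?_
  refine Primrec.ite (hp.comp (Primrec.snd.pair (Primrec.snd.comp (Primrec.snd.comp Primrec.fst))))
    (Primrec.option_some.comp (Primrec.fst.comp (Primrec.snd.comp (Primrec.snd.comp Primrec.fst))))
    (Primrec.const none)

lemma re_reach {α σ W : Type} [Primcodable α] [Primcodable σ] [Primcodable W]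
    {p : σ → σ → W → Prop} (hp : PrimrecPred fun t : σ × σ × W => p t.1 t.2.1 t.2.2)
    {s : Set σ} (hs : s.Finite) {f : α → σ} (hf : Primrec f) :
    REPred fun a => ∃ v ∈ s, ReflTransGen (fun a b => ∃ ω, p a b ω) v (f a) := by
  have h1 : PrimrecRel fun (a : α) (l : List (σ × W)) => ∃ v ∈ s, chk p v l = some (f a) := by
    refine primrecPred_exists_finite hs
      (p := fun v (t : α × List (σ × W)) => chk p v t.2 = some (f t.1)) fun v _ => ?_
    exact Primrec.eq.comp ((chk_primrec hp).comp (Primrec.const v) Primrec.snd)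
      (Primrec.option_some.comp (hf.comp Primrec.fst))
  refine (re_exists h1).of_eq fun a => ?_
  simp only [chk_iff]
  constructor
  · rintro ⟨l, v, h2, h3⟩; exact ⟨v, h2, l, h3⟩
  · rintro ⟨v, h2, l, h3⟩; exact ⟨l, v, h2, h3⟩

lemma primrec_map_fin {α β : Type} [Primcodable α] [Primcodable β] [Finite α] (f : α → β) :
    Primrec (List.map f) :=
  Primrec.list_map Primrec.id ((Primrec.dom_finite f).comp Primrec.snd).to₂

theorem IsEM1.re {k : ℕ} {L : Language (Fin k)} (h : IsEM1 L) :
    REPred fun w : List (Fin k) => w ∈ L := by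
  obtain ⟨n, N, hN, comp, start, rules, _, hs, hr, _, _, hL⟩ := h
  have : Finite (Symbol (Fin k) N) := finite_symbol
  let _ : Primcodable (Symbol (Fin k) N) := Primcodable.ofEquiv _ (Finite.equivFin _)
  let p : List (Symbol (Fin k) N) → List (Symbol (Fin k) N) →
      (Fin n → List (Symbol (Fin k) N)) × (Fin n → List (Symbol (Fin k) N)) → Prop :=
    fun x y ω => ∃ r ∈ rules,
      (∀ i, Over comp i (ω.1 i ++ ω.2 i) ∧ Symbol.nonterminal (r.1 i) ∉ ω.1 i) ∧
      x = (List.ofFn fun i => ω.1 i ++ [Symbol.nonterminal (r.1 i)] ++ ω.2 i).flatten ∧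
      y = (List.ofFn fun i => ω.1 i ++ r.2 i ++ ω.2 i).flatten
  have e1 : Step1 comp rules = fun a b => ∃ ω, p a b ω := by
    funext a b
    apply propext
    constructor
    · rintro ⟨r, h1, u, w, h2⟩; exact ⟨(u, w), r, h1, h2⟩
    · rintro ⟨ω, r, h1, h2⟩; exact ⟨r, h1, ω.1, ω.2, h2⟩
  have hp : PrimrecPred fun t : List (Symbol (Fin k) N) × List (Symbol (Fin k) N) ×
      (Fin n → List (Symbol (Fin k) N)) × (Fin n → List (Symbol (Fin k) N)) =>
      p t.1 t.2.1 t.2.2 := by
    refine primrecPred_exists_finite hr fun r _ => ?_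
    have hu : ∀ i, Primrec fun t : List (Symbol (Fin k) N) × List (Symbol (Fin k) N) ×
        (Fin n → List (Symbol (Fin k) N)) × (Fin n → List (Symbol (Fin k) N)) => t.2.2.1 i :=
      fun i => Primrec.fin_app.comp (Primrec.fst.comp (Primrec.snd.comp Primrec.snd))
        (Primrec.const i)
    have hw : ∀ i, Primrec fun t : List (Symbol (Fin k) N) × List (Symbol (Fin k) N) ×
        (Fin n → List (Symbol (Fin k) N)) × (Fin n → List (Symbol (Fin k) N)) => t.2.2.2 i :=
      fun i => Primrec.fin_app.comp (Primrec.snd.comp (Primrec.snd.comp Primrec.snd))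
        (Primrec.const i)
    refine (primrecPred_forall_finite fun i => PrimrecPred.and ?_ ?_).and (PrimrecPred.and ?_ ?_)
    · refine ((primrecPred_dom_finite (fun a : Symbol (Fin k) N =>
        ∀ A, a = Symbol.nonterminal A → comp A = i)).forall_mem_list.comp
        (Primrec.list_append.comp (hu i) (hw i))).of_eq fun t => ?_
      exact ⟨fun h A hA => h _ hA A rfl, fun h a ha A e => h A (e ▸ ha)⟩
    · refine ((primrecPred_dom_finite (fun a : Symbol (Fin k) N =>
        a ≠ Symbol.nonterminal (r.1 i))).forall_mem_list.comp (hu i)).of_eq fun t => ?_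
      exact ⟨fun h hA => h _ hA rfl, fun h a ha e => h (e ▸ ha)⟩
    · exact Primrec.eq.comp Primrec.fst (Primrec.list_flatten.comp (Primrec.list_ofFn fun i =>
        Primrec.list_append.comp (Primrec.list_append.comp (hu i) (Primrec.const _)) (hw i)))
    · exact Primrec.eq.comp (Primrec.fst.comp Primrec.snd)
        (Primrec.list_flatten.comp (Primrec.list_ofFn fun i =>
        Primrec.list_append.comp (Primrec.list_append.comp (hu i) (Primrec.const _)) (hw i)))
  refine (re_reach hp hs (primrec_map_fin Symbol.terminal)).of_eq fun w => ?_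
  rw [hL, e1]

end Pool.Agent.MP_99d1ae_lc

end

section

set_option autoImplicit false

namespace Pool.Agent.MP_99d1ae_lc

open Relation

lemma primrecRel_mem {α : Type} [Primcodable α] : PrimrecRel fun (L : List α) (b : α) => b ∈ L :=
  (PrimrecRel.exists_mem_list (Primrec.eq (α := α))).of_eq fun _ _ => by simp

lemma PrimrecPred.imp' {α : Type} [Primcodable α] {p q : α → Prop} (hp : PrimrecPred p)
    (hq : PrimrecPred q) : PrimrecPred fun a => p a → q a :=
  (hp.not.or hq).of_eq fun _ => imp_iff_not_or.symm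

lemma mono_computable {σ α : Type} [Primcodable σ] [Finite σ] [Primcodable α]
    {R : Set (List σ × List σ)} (hR : R.Finite) (hm : ∀ r ∈ R, r.1.length ≤ r.2.length)
    (x0 : List σ) {f : α → List σ} (hf : Primrec f) :
    ComputablePred fun a => ReflTransGen
      (fun x y => ∃ r ∈ R, ∃ p q, x = p ++ r.1 ++ q ∧ y = p ++ r.2 ++ q) x0 (f a) := by
  rw [ComputablePred.computable_iff_re_compl_re']
  constructor
  · have hp : PrimrecPred fun t : List σ × List σ × (List σ × List σ) =>
        ∃ r ∈ R, t.1 = t.2.2.1 ++ r.1 ++ t.2.2.2 ∧ t.2.1 = t.2.2.1 ++ r.2 ++ t.2.2.2 := by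
      refine primrecPred_exists_finite hR fun r _ => PrimrecPred.and ?_ ?_
      · exact Primrec.eq.comp Primrec.fst (Primrec.list_append.comp (Primrec.list_append.comp
          (Primrec.fst.comp (Primrec.snd.comp Primrec.snd)) (Primrec.const _))
          (Primrec.snd.comp (Primrec.snd.comp Primrec.snd)))
      · exact Primrec.eq.comp (Primrec.fst.comp Primrec.snd)
          (Primrec.list_append.comp (Primrec.list_append.comp
          (Primrec.fst.comp (Primrec.snd.comp Primrec.snd)) (Primrec.const _))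
          (Primrec.snd.comp (Primrec.snd.comp Primrec.snd)))
    refine (re_reach (p := fun (x y : List σ) (ω : List σ × List σ) =>
      ∃ r ∈ R, x = ω.1 ++ r.1 ++ ω.2 ∧ y = ω.1 ++ r.2 ++ ω.2) hp (Set.finite_singleton x0)
      hf).of_eq fun a => ?_
    have e1 : (fun (x y : List σ) => ∃ ω : List σ × List σ,
        ∃ r ∈ R, x = ω.1 ++ r.1 ++ ω.2 ∧ y = ω.1 ++ r.2 ++ ω.2) =
        fun x y => ∃ r ∈ R, ∃ p q, x = p ++ r.1 ++ q ∧ y = p ++ r.2 ++ q := by
      funext x y
      apply propext
      constructor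
      · rintro ⟨ω, r, h1, h2⟩; exact ⟨r, h1, ω.1, ω.2, h2⟩
      · rintro ⟨r, h1, p, q, h2⟩; exact ⟨(p, q), r, h1, h2⟩
    rw [e1]; simp
  · let C : List σ × List σ → ℕ → List σ × (α × List (List σ)) → Prop := fun r i t =>
      t.1 = t.1.take i ++ r.1 ++ t.1.drop (i + r.1.length) →
        (t.1.take i ++ r.2 ++ t.1.drop (i + r.1.length)).length ≤ (f t.2.1).length →
        t.1.take i ++ r.2 ++ t.1.drop (i + r.1.length) ∈ t.2.2
    have hC : ∀ r, PrimrecRel (C r) := by
      intro r
      have h1 : ∀ v : List σ, Primrec fun z : ℕ × (List σ × (α × List (List σ))) =>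
          z.2.1.take z.1 ++ v ++ z.2.1.drop (z.1 + r.1.length) := fun v =>
        Primrec.list_append.comp (Primrec.list_append.comp
          (Primrec.list_take.comp Primrec.fst (Primrec.fst.comp Primrec.snd)) (Primrec.const _))
          (Primrec.list_drop.comp (Primrec.nat_add.comp Primrec.fst (Primrec.const _))
            (Primrec.fst.comp Primrec.snd))
      refine PrimrecPred.imp' (Primrec.eq.comp (Primrec.fst.comp Primrec.snd) (h1 r.1))
        (PrimrecPred.imp' (Primrec.nat_le.comp (Primrec.list_length.comp (h1 r.2))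
          (Primrec.list_length.comp (hf.comp (Primrec.fst.comp (Primrec.snd.comp Primrec.snd)))))
          (primrecRel_mem.comp (Primrec.snd.comp (Primrec.snd.comp Primrec.snd)) (h1 r.2)))
    have hD : PrimrecRel fun (x : List σ) (t : α × List (List σ)) =>
        ¬ ∃ r ∈ R, ¬ ∀ i < x.length + 1, C r i (x, t) := by
      refine PrimrecPred.not (primrecPred_exists_finite hR
        (p := fun r (z : List σ × (α × List (List σ))) =>
          ¬ ∀ i < z.1.length + 1, C r i (z.1, z.2)) fun r _ => PrimrecPred.not ?_)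
      have h0 := PrimrecRel.forall_mem_list (hC r)
      exact (PrimrecRel.comp h0 (Primrec.list_range.comp
        (Primrec.succ.comp (Primrec.list_length.comp Primrec.fst))) Primrec.id).of_eq
        fun _ => by simp
    have hE : PrimrecRel fun (a : α) (U : List (List σ)) => x0 ∈ U ∧ f a ∉ U ∧
        ∀ x ∈ U, ¬ ∃ r ∈ R, ¬ ∀ i < x.length + 1, C r i (x, (a, U)) := by
      refine PrimrecPred.and (primrecRel_mem.comp Primrec.snd (Primrec.const _))
        (PrimrecPred.and (primrecRel_mem.comp Primrec.snd (hf.comp Primrec.fst)).not ?_)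
      exact hD.forall_mem_list.comp Primrec.snd Primrec.id
    refine (re_exists hE).of_eq fun a => ⟨?_, ?_⟩
    · rintro ⟨U, h1, h2, h3⟩ h4
      have key : ∀ y, ReflTransGen
          (fun x y => ∃ r ∈ R, ∃ p q, x = p ++ r.1 ++ q ∧ y = p ++ r.2 ++ q) x0 y →
          y.length ≤ (f a).length → y ∈ U := by
        intro y hy
        induction hy with
        | refl => exact fun _ => h1
        | tail _ hs ih =>
          obtain ⟨r, hr, p, q, rfl, rfl⟩ := hs
          intro h5
          have h6 := hm r hr
          have h7 := h3 _ (ih (by simp at h5 ⊢; omega))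
          push Not at h7
          have h8 := h7 r hr p.length (by simp only [List.length_append]; omega)
          have e1 : (p ++ r.1 ++ q).take p.length = p := by simp
          have e2 : (p ++ r.1 ++ q).drop (p.length + r.1.length) = q := by
            rw [← List.length_append, List.drop_left]
          simp only [C, e1, e2] at h8
          exact h8 trivial h5
      exact h2 (key _ h4 le_rfl)
    · intro h
      have h1 : {y | ReflTransGen
          (fun x y => ∃ r ∈ R, ∃ p q, x = p ++ r.1 ++ q ∧ y = p ++ r.2 ++ q) x0 y ∧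
          y.length ≤ max x0.length (f a).length}.Finite :=
        (List.finite_length_le σ _).subset fun y hy => hy.2
      refine ⟨h1.toFinset.toList, ?_, ?_, ?_⟩
      · simp only [Finset.mem_toList, Set.Finite.mem_toFinset]
        exact ⟨ReflTransGen.refl, le_max_left _ _⟩
      · simp only [Finset.mem_toList, Set.Finite.mem_toFinset]
        exact fun h2 => h h2.1
      · intro x hx
        simp only [Finset.mem_toList, Set.Finite.mem_toFinset] at hx
        push Not
        intro r hr i _ h2 h3
        simp only [Finset.mem_toList, Set.Finite.mem_toFinset]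
        exact ⟨hx.1.tail ⟨r, hr, _, _, h2, rfl⟩, h3.trans (le_max_right _ _)⟩

theorem IsCS.computable {k : ℕ} {L : Language (Fin k)} (h : IsCS L) :
    ComputablePred fun w : List (Fin k) => w ∈ L := by
  classical
  obtain ⟨N, hN, S, R, hR, hm, hL⟩ := h
  have : Finite (Symbol (Fin k) N) := finite_symbol
  let _ : Primcodable (Symbol (Fin k) N) := Primcodable.ofEquiv _ (Finite.equivFin _)
  have h1 := mono_computable hR (fun r hr => (hm r hr).2) [Symbol.nonterminal S]
    (primrec_map_fin (Symbol.terminal : Fin k → Symbol (Fin k) N))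
  have h2 : Computable fun w : List (Fin k) => decide (w = []) :=
    (Primrec.eq.comp Primrec.id (Primrec.const [])).decide.to_comp
  refine Computable.computablePred ((Computable.cond h2 (Computable.const (decide ([] ∈ L)))
    h1.decide).of_eq fun w => ?_)
  by_cases hw : w = []
  · simp [hw]
  · simp [hw, hL w hw]

end Pool.Agent.MP_99d1ae_lc

end
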