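import Mathlib
import Pool.Agent.Mg.F99d1ae.Ga84006
import Pool.Agent.MP_99d1ae_lc.Defs

section

set_option autoImplicit false

namespace Pool.Agent.MP_99d1ae_lc

open Relation Function

inductive CN
  | G
  | X
  | A (r : ℕ)
  deriving DecidableEq

inductive CQ (Q : Type)
  | inp
  | run (q : Q)
  | test (r : ℕ) (q : Q)
  | fin1
  | fin2

abbrev CS3 := Symbol (Fin 3) CN

def sG : CS3 := Symbol.nonterminal CN.G
def sX : CS3 := Symbol.nonterminal CN.X
def sA (r : ℕ) : CS3 := Symbol.nonterminal (CN.A r)
def ta : CS3 := Symbol.terminal 0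
def tb : CS3 := Symbol.terminal 1
def tc : CS3 := Symbol.terminal 2

inductive CR {Q : Type} (δ : Set (Q × Instr × Q)) (q0 qf : Q) :
    CQ Q → CN → List CS3 → CQ Q → Prop
  | gen : CR δ q0 qf .inp .G [tc, sG, sA 0] .inp
  | start : CR δ q0 qf .inp .G [sG] (.run q0)
  | inc {q q' : Q} {r : ℕ} : (q, Instr.inc r, q') ∈ δ → CR δ q0 qf (.run q) .G [sG, sA r] (.run q')
  | dec {q q' : Q} {r : ℕ} : (q, Instr.dec r, q') ∈ δ → CR δ q0 qf (.run q) (.A r) [] (.run q')
  | zero1 {q q' : Q} {r : ℕ} : (q, Instr.zero r, q') ∈ δ →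
      CR δ q0 qf (.run q) .X [sA r] (.test r q')
  | zero2 {q q' : Q} {r : ℕ} : (q, Instr.zero r, q') ∈ δ →
      CR δ q0 qf (.test r q') (.A r) [sX] (.run q')
  | skip {q q' : Q} : (q, Instr.skip, q') ∈ δ → CR δ q0 qf (.run q) .G [sG] (.run q')
  | end1 : CR δ q0 qf (.run qf) .G [] .fin1
  | end2 : CR δ q0 qf .fin1 .X [tb] .fin2

def CRset {Q : Type} (δ : Set (Q × Instr × Q)) (q0 qf : Q) : Set (CQ Q × CN × List CS3 × CQ Q) :=
  {ρ | CR δ q0 qf ρ.1 ρ.2.1 ρ.2.2.1 ρ.2.2.2}

def crOf {Q : Type} : Q × Instr × Q → Set (CQ Q × CN × List CS3 × CQ Q)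
  | (q, .inc r, q') => {(.run q, .G, [sG, sA r], .run q')}
  | (q, .dec r, q') => {(.run q, .A r, [], .run q')}
  | (q, .zero r, q') => {(.run q, .X, [sA r], .test r q'), (.test r q', .A r, [sX], .run q')}
  | (q, .skip, q') => {(.run q, .G, [sG], .run q')}

lemma CRset_finite {Q : Type} {δ : Set (Q × Instr × Q)} (hδ : δ.Finite) (q0 qf : Q) :
    (CRset δ q0 qf).Finite := by
  have h1 : (⋃ t ∈ δ, crOf t).Finite := by
    refine hδ.biUnion ?_
    rintro ⟨q, i, q'⟩ _
    cases i
    · exact Set.finite_singleton _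
    · exact Set.finite_singleton _
    · exact (Set.finite_singleton _).insert _
    · exact Set.finite_singleton _
  have h2 : ({(.inp, .G, [tc, sG, sA 0], .inp), (.inp, .G, [sG], .run q0), (.run qf, .G, [], .fin1),
      (.fin1, .X, [tb], .fin2)} : Set (CQ Q × CN × List CS3 × CQ Q)).Finite := Set.toFinite _
  refine (h1.union h2).subset ?_
  rintro ⟨p, A, v, p'⟩ h
  have h' : CR δ q0 qf p A v p' := h
  clear h
  cases h' with
  | gen => right; simp
  | start => right; simp
  | inc h => exact Or.inl (Set.mem_biUnion h rfl)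
  | dec h => exact Or.inl (Set.mem_biUnion h rfl)
  | zero1 h => exact Or.inl (Set.mem_biUnion h (Or.inl rfl))
  | zero2 h => exact Or.inl (Set.mem_biUnion h (Or.inr rfl))
  | skip h => exact Or.inl (Set.mem_biUnion h rfl)
  | end1 => right; simp
  | end2 => right; simp

lemma first_unique {α : Type} {a : α} : ∀ {u u' w w' : List α}, a ∉ u → a ∉ u' →
    u ++ [a] ++ w = u' ++ [a] ++ w' → u = u' ∧ w = w'
  | [], [], w, w', _, _, h => by simpa using h
  | [], b :: u', w, w', _, h2, h => by
    simp only [List.nil_append, List.cons_append, List.cons.injEq] at h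
    exact absurd (h.1 ▸ List.mem_cons_self) h2
  | b :: u, [], w, w', h1, _, h => by
    simp only [List.nil_append, List.cons_append, List.cons.injEq] at h
    exact absurd (h.1 ▸ List.mem_cons_self) h1
  | b :: u, c :: u', w, w', h1, h2, h => by
    simp only [List.cons_append, List.cons.injEq] at h
    obtain ⟨h3, h4⟩ := first_unique (fun h => h1 (List.mem_cons_of_mem _ h))
      (fun h => h2 (List.mem_cons_of_mem _ h)) h.2
    exact ⟨by rw [h.1, h3], h4⟩

lemma LRw.unique {T N : Type} {A : N} {v x y u w : List (Symbol T N)} (h : LRw A v x y)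
    (hu : Symbol.nonterminal A ∉ u) (hx : x = u ++ [Symbol.nonterminal A] ++ w) :
    y = u ++ v ++ w := by
  obtain ⟨u', w', h1, h2, rfl⟩ := h
  obtain ⟨rfl, rfl⟩ := first_unique hu h1 (hx.symm.trans h2)
  rfl

lemma LRw.mem {T N : Type} {A : N} {v x y : List (Symbol T N)} (h : LRw A v x y) :
    Symbol.nonterminal A ∈ x := by
  obtain ⟨u', w', _, rfl, _⟩ := h
  simp

def cnt (l : List ℕ) : Store := fun r => l.count r

lemma cnt_cons (r : ℕ) (l : List ℕ) : cnt (r :: l) = update (cnt l) r (cnt l r + 1) := by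
  funext x
  simp only [cnt, update_apply, List.count_cons]
  split_ifs <;> simp_all

lemma cnt_erase (r : ℕ) (l1 l2 : List ℕ) :
    cnt (l1 ++ l2) = update (cnt (l1 ++ r :: l2)) r (cnt (l1 ++ r :: l2) r - 1) := by
  funext x
  simp only [cnt, update_apply, List.count_cons, List.count_append]
  split_ifs <;> simp_all

lemma cnt_replicate (n : ℕ) : cnt (List.replicate n 0) = update (0 : Store) 0 n := by
  funext x
  simp only [cnt, update_apply, List.count_replicate]
  split_ifs <;> simp_all

lemma sA_mem {r : ℕ} {l : List ℕ} : Symbol.nonterminal (CN.A r) ∈ l.map sA ↔ r ∈ l := by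
  simp [sA]

def str (n : ℕ) (l : List ℕ) : List CS3 := List.replicate n tc ++ [sG] ++ (l.map sA ++ [ta, sX])

lemma str_succ (n : ℕ) : str (n + 1) (List.replicate (n + 1) 0) = List.replicate n tc ++
    [tc, sG, sA 0] ++ ((List.replicate n 0).map sA ++ [ta, sX]) := by
  unfold str
  rw [List.replicate_succ' (a := tc), List.replicate_succ (a := 0)]
  simp

section
variable {Q : Type} {δ : Set (Q × Instr × Q)} {q0 qf : Q}

lemma cstep_of {p p' : CQ Q} {A : CN} {v : List CS3} (h : CR δ q0 qf p A v p') {x y : List CS3}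
    (u w : List CS3) (hu : Symbol.nonterminal A ∉ u) (hx : x = u ++ [Symbol.nonterminal A] ++ w)
    (hy : y = u ++ v ++ w) : CStep (CRset δ q0 qf) ∅ (p, x) (p', y) :=
  Or.inl ⟨A, v, h, u, w, hu, hx, hy⟩

lemma sim_mstep (n : ℕ) {c c' : Q × Store} (h : MStep δ c c') (l : List ℕ) (hl : c.2 = cnt l) :
    ∃ l', c'.2 = cnt l' ∧ ReflTransGen (CStep (CRset δ q0 qf) ∅) (.run c.1, str n l)
      (.run c'.1, str n l') := by
  obtain ⟨q, s⟩ := c
  obtain ⟨q', s'⟩ := c'
  obtain ⟨i, hi, hs⟩ := h
  simp only at hi hs hl ⊢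
  subst hl
  cases i with
  | inc r =>
    refine ⟨r :: l, by rw [cnt_cons]; exact hs, ReflTransGen.single ?_⟩
    exact cstep_of (CR.inc hi) (List.replicate n tc) _ (by simp [tc]) rfl (by simp [str])
  | dec r =>
    obtain ⟨h1, h2⟩ := hs
    have h3 : r ∈ l := List.count_pos_iff.mp (Nat.pos_of_ne_zero h1)
    obtain ⟨l1, l2, rfl, h4⟩ := List.eq_append_cons_of_mem h3
    refine ⟨l1 ++ l2, by rw [cnt_erase r]; exact h2, ReflTransGen.single ?_⟩
    exact cstep_of (CR.dec hi) (List.replicate n tc ++ [sG] ++ l1.map sA) (l2.map sA ++ [ta, sX])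
      (by simp [tc, sG, sA, h4]) (by simp [str, sA]) (by simp [str])
  | zero r =>
    obtain ⟨h1, h2⟩ := hs
    have h3 : r ∉ l := List.count_eq_zero.mp h1
    refine ⟨l, h2, ReflTransGen.head (b := (.test r q', List.replicate n tc ++ [sG] ++ l.map sA ++
      [ta] ++ [sA r])) ?_ (ReflTransGen.single ?_)⟩
    · exact cstep_of (CR.zero1 hi) (List.replicate n tc ++ [sG] ++ l.map sA ++ [ta]) []
        (by simp [tc, sG, sA, ta]) (by simp [str, sX]) (by simp)
    · exact cstep_of (CR.zero2 hi) (List.replicate n tc ++ [sG] ++ l.map sA ++ [ta]) []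
        (by simp [tc, sG, sA, ta, h3]) (by simp [sA]) (by simp [str])
  | skip =>
    refine ⟨l, hs, ReflTransGen.single ?_⟩
    exact cstep_of (CR.skip hi) (List.replicate n tc) _ (by simp [tc]) rfl rfl

def word (n : ℕ) : List (Fin 3) := List.replicate n 2 ++ [0, 1]

lemma map_word (n : ℕ) :
    (word n).map (Symbol.terminal : Fin 3 → CS3) = List.replicate n tc ++ [ta, tb] := by
  simp [word, tc, ta, tb]

lemma sim_complete (n : ℕ) (h : ReflTransGen (MStep δ) (q0, update 0 0 n) (qf, 0)) :
    ReflTransGen (CStep (CRset δ q0 qf) ∅) (.inp, [sG, ta, sX])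
      (.fin2, (word n).map Symbol.terminal) := by
  have h1 : ∀ k, ReflTransGen (CStep (CRset δ q0 qf) ∅) (.inp, [sG, ta, sX])
      (.inp, str k (List.replicate k 0)) := by
    intro k
    induction k with
    | zero => exact ReflTransGen.refl
    | succ k ih =>
      exact ih.tail (cstep_of CR.gen (List.replicate k tc) _ (by simp [tc]) rfl (str_succ k))
  have h2 : ∀ c, ReflTransGen (MStep δ) (q0, update 0 0 n) c → ∃ l, c.2 = cnt l ∧
      ReflTransGen (CStep (CRset δ q0 qf) ∅) (.inp, [sG, ta, sX]) (.run c.1, str n l) := by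
    intro c hc
    induction hc with
    | refl =>
      refine ⟨_, (cnt_replicate n).symm, (h1 n).tail ?_⟩
      exact cstep_of CR.start (List.replicate n tc) _ (by simp [tc]) rfl rfl
    | tail _ hs ih =>
      obtain ⟨l, h3, h4⟩ := ih
      obtain ⟨l', h5, h6⟩ := sim_mstep (q0 := q0) (qf := qf) n hs l h3
      exact ⟨l', h5, h4.trans h6⟩
  obtain ⟨l, h3, h4⟩ := h2 _ h
  have h5 : l = [] := by
    cases l with
    | nil => rfl
    | cons r l =>
      have := congrFun h3 r
      simp [cnt] at this
  subst h5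
  rw [map_word]
  refine (h4.tail (c := (.fin1, List.replicate n tc ++ [ta, sX])) ?_).tail ?_
  · exact cstep_of CR.end1 (List.replicate n tc) _ (by simp [tc]) rfl (by simp)
  · exact cstep_of CR.end2 (List.replicate n tc ++ [ta]) [] (by simp [tc, ta]) (by simp [sX])
      (by simp)

inductive CInv (δ : Set (Q × Instr × Q)) (q0 qf : Q) : CQ Q → List CS3 → Prop
  | inp (n : ℕ) : CInv δ q0 qf .inp (str n (List.replicate n 0))
  | run {n : ℕ} {l : List ℕ} {q : Q} : ReflTransGen (MStep δ) (q0, update 0 0 n) (q, cnt l) →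
      CInv δ q0 qf (.run q) (str n l)
  | test {n : ℕ} {l : List ℕ} {q q' : Q} {r : ℕ} :
      ReflTransGen (MStep δ) (q0, update 0 0 n) (q, cnt l) → (q, Instr.zero r, q') ∈ δ →
      CInv δ q0 qf (.test r q') (List.replicate n tc ++ [sG] ++ l.map sA ++ [ta] ++ [sA r])
  | fin1 {n : ℕ} {l : List ℕ} : ReflTransGen (MStep δ) (q0, update 0 0 n) (qf, cnt l) →
      CInv δ q0 qf .fin1 (List.replicate n tc ++ l.map sA ++ [ta] ++ [sX])
  | fin2 {n : ℕ} {l : List ℕ} : ReflTransGen (MStep δ) (q0, update 0 0 n) (qf, cnt l) →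
      CInv δ q0 qf .fin2 (List.replicate n tc ++ l.map sA ++ [ta] ++ [tb])
  | bad {p : CQ Q} {u v : List CS3} : (∀ y ∈ v, ∃ r, y = sA r) →
      (∀ r q', p = .test r q' → sA r ∈ u) → CInv δ q0 qf p (u ++ [ta] ++ v)

lemma CInv.cast {p : CQ Q} {x y : List CS3} (h : CInv δ q0 qf p x) (e : y = x) :
    CInv δ q0 qf p y := e ▸ h

lemma CInv.step {p p' : CQ Q} {x y v : List CS3} {A : CN} (h : CInv δ q0 qf p x)
    (hr : CR δ q0 qf p A v p') (hs : LRw A v x y) : CInv δ q0 qf p' y := by
  cases h with
  | inp n =>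
    cases hr with
    | gen =>
      rw [hs.unique (u := List.replicate n tc) (by simp [tc]) rfl]
      exact (CInv.inp (n + 1)).cast (str_succ n).symm
    | start =>
      rw [hs.unique (u := List.replicate n tc) (by simp [tc]) rfl]
      exact CInv.run (by rw [cnt_replicate])
  | @run n l q hq =>
    cases hr with
    | @inc _ q' r hi =>
      rw [hs.unique (u := List.replicate n tc) (by simp [tc]) rfl]
      refine (CInv.run (n := n) (l := r :: l) (hq.tail (c := (q', cnt (r :: l)))
        ⟨_, hi, cnt_cons r l⟩)).cast ?_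
      simp [str]
    | @dec _ q' r hi =>
      have h3 : r ∈ l := by simpa [str, tc, sG, sA, ta, sX] using hs.mem
      obtain ⟨l1, l2, rfl, h4⟩ := List.eq_append_cons_of_mem h3
      rw [hs.unique (u := List.replicate n tc ++ [sG] ++ l1.map sA) (w := l2.map sA ++ [ta, sX])
        (by simp [tc, sG, sA, h4]) (by simp [str, sA])]
      refine (CInv.run (n := n) (l := l1 ++ l2) (hq.tail (c := (q', cnt (l1 ++ l2)))
        ⟨_, hi, by simp [cnt], cnt_erase r l1 l2⟩)).cast ?_
      simp [str]
    | @zero1 _ q' r hi =>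
      rw [hs.unique (u := List.replicate n tc ++ [sG] ++ l.map sA ++ [ta]) (w := [])
        (by simp [tc, sG, sA, ta]) (by simp [str, sX])]
      rw [List.append_nil]
      exact CInv.test hq hi
    | @skip _ q' hi =>
      rw [hs.unique (u := List.replicate n tc) (by simp [tc]) rfl]
      exact CInv.run (hq.tail (c := (q', cnt l)) ⟨_, hi, rfl⟩)
    | end1 =>
      rw [hs.unique (u := List.replicate n tc) (by simp [tc]) rfl]
      refine (CInv.fin1 hq).cast ?_
      simp
  | @test n l q q' r hq hi =>
    cases hr with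
    | zero2 _ =>
      by_cases h3 : r ∈ l
      · obtain ⟨l1, l2, rfl, h4⟩ := List.eq_append_cons_of_mem h3
        rw [hs.unique (u := List.replicate n tc ++ [sG] ++ l1.map sA)
          (w := l2.map sA ++ [ta] ++ [sA r]) (by simp [tc, sG, sA, h4]) (by simp [sA])]
        refine (CInv.bad (u := List.replicate n tc ++ [sG] ++ l1.map sA ++ [sX] ++ l2.map sA)
          (v := [sA r]) (by simp) (fun _ _ h => by cases h)).cast ?_
        simp
      · rw [hs.unique (u := List.replicate n tc ++ [sG] ++ l.map sA ++ [ta]) (w := [])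
          (by simp [tc, sG, sA, ta, h3]) (by simp [sA])]
        refine (CInv.run (n := n) (l := l) (hq.tail (c := (q', cnt l))
          ⟨_, hi, List.count_eq_zero.mpr h3, rfl⟩)).cast ?_
        simp [str]
  | @fin1 n l hq =>
    cases hr with
    | end2 =>
      rw [hs.unique (u := List.replicate n tc ++ l.map sA ++ [ta]) (w := [])
        (by simp [tc, sA, ta]) (by simp [sX])]
      rw [List.append_nil]
      exact CInv.fin2 hq
  | fin2 hq => cases hr
  | @bad _ u w h1 h2 =>
    by_cases h3 : Symbol.nonterminal A ∈ u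
    · obtain ⟨u1, u2, rfl, h4⟩ := List.eq_append_cons_of_mem h3
      rw [hs.unique (u := u1) (w := u2 ++ [ta] ++ w) h4 (by simp)]
      refine (CInv.bad (u := u1 ++ v ++ u2) (v := w) h1 ?_).cast (by simp)
      rintro r q' rfl
      cases hr
      simp
    · have h4 : Symbol.nonterminal A ∈ w := by
        have := hs.mem
        simp only [List.mem_append, h3, false_or, List.mem_singleton, ta] at this
        rcases this with h | h
        · cases h
        · exact h
      obtain ⟨r, hr'⟩ := h1 _ h4
      cases hr'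
      obtain ⟨w1, w2, rfl, h5⟩ := List.eq_append_cons_of_mem h4
      cases hr with
      | dec _ =>
        rw [hs.unique (u := u ++ [ta] ++ w1) (w := w2) (by simp [h3, h5, ta]) (by simp)]
        refine (CInv.bad (u := u) (v := w1 ++ w2) ?_ (fun _ _ h => by cases h)).cast (by simp)
        intro y hy
        apply h1
        rcases List.mem_append.mp hy with h | h
        · exact List.mem_append_left _ h
        · exact List.mem_append_right _ (List.mem_cons_of_mem _ h)
      | zero2 _ => exact absurd (h2 _ _ rfl) h3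

lemma sim_sound (n : ℕ) (h : ReflTransGen (CStep (CRset δ q0 qf) ∅) (.inp, [sG, ta, sX])
      (.fin2, (word n).map Symbol.terminal)) :
    ReflTransGen (MStep δ) (q0, update 0 0 n) (qf, 0) := by
  have key : ∀ c, ReflTransGen (CStep (CRset δ q0 qf) ∅) (.inp, [sG, ta, sX]) c →
      CInv δ q0 qf c.1 c.2 := by
    intro c hc
    induction hc with
    | refl => exact CInv.inp 0
    | tail _ hs ih =>
      rcases hs with ⟨A, v, hr, hs⟩ | ⟨h, _⟩
      · exact ih.step hr hs
      · exact absurd h (Set.notMem_empty _)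
  have h1 := key _ h
  simp only at h1
  generalize hx : (word n).map (Symbol.terminal : Fin 3 → CS3) = x at h1
  have hnt : ∀ A, Symbol.nonterminal A ∉ x := by
    intro A; rw [← hx]; simp
  rw [map_word] at hx
  cases h1 with
  | @fin2 m l hq =>
    have h2 : l = [] := by
      cases l with
      | nil => rfl
      | cons r l => exact absurd (by simp [sA]) (hnt (CN.A r))
    subst h2
    have h3 : n = m := by
      have := congrArg List.length hx
      simpa using this
    subst h3
    exact hq
  | @bad _ u v h2 _ =>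
    exfalso
    have h3 : v = [] := by
      cases v with
      | nil => rfl
      | cons y v =>
        obtain ⟨r, rfl⟩ := h2 y List.mem_cons_self
        exact absurd (by simp [sA]) (hnt (CN.A r))
    subst h3
    have := congrArg List.getLast? hx
    simp [ta, tb] at this

end

/-- Every projection of a primitive recursive zero set is coded in a mode-1 language. -/
theorem exists_em1_coding {g : ℕ → ℕ → ℕ} (hg : Primrec₂ g) :
    ∃ L : Language (Fin 3), IsEM1 L ∧ ∀ n, word n ∈ L ↔ ∃ k, g n k = 0 := by
  obtain ⟨R, ⟨Q, δ, q0, qf, hδ, hR⟩, h⟩ := cdef_of_primrec hg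
  refine ⟨_, isEM1_of_clg (E := ∅) (CRset_finite hδ q0 qf) Set.finite_empty CQ.inp CQ.fin2
    [sG, ta, sX], fun n => ?_⟩
  rw [← h, hR]
  exact ⟨sim_sound n, sim_complete n⟩

end Pool.Agent.MP_99d1ae_lc

end

section

set_option autoImplicit false

namespace Pool.Agent.MP_99d1ae_lc

open Relation

abbrev WS := Symbol (Fin 3) (Fin 3)

def wZ : WS := Symbol.nonterminal 0
def wS : WS := Symbol.nonterminal 1
def wA : WS := Symbol.nonterminal 2
def wa : WS := Symbol.terminal 0
def wb : WS := Symbol.terminal 1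
def wc : WS := Symbol.terminal 2

def wR : Set (List WS × List WS) :=
  {([wZ], [wS, wa]), ([wS], [wA, wS, wb]), ([wS], [wA, wb]), ([wA, wb], [wb, wc, wA]),
    ([wA, wc], [wc, wA]), ([wA, wa], [wa, wa])}

def wStep (x y : List WS) : Prop := ∃ r ∈ wR, ∃ p q, x = p ++ r.1 ++ q ∧ y = p ++ r.2 ++ q

def wL : Language (Fin 3) := {w | ReflTransGen wStep [wZ] (w.map Symbol.terminal)}

lemma wL_isCS : IsCS wL := by
  refine ⟨Fin 3, inferInstance, 0, wR, by unfold wR; exact Set.toFinite _, ?_, fun w _ => Iff.rfl⟩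
  intro r hr
  rcases hr with rfl | rfl | rfl | rfl | rfl | rfl
  · exact ⟨⟨0, by simp [wZ]⟩, by simp⟩
  · exact ⟨⟨1, by simp [wS]⟩, by simp⟩
  · exact ⟨⟨1, by simp [wS]⟩, by simp⟩
  · exact ⟨⟨2, by simp [wA]⟩, by simp⟩
  · exact ⟨⟨2, by simp [wA]⟩, by simp⟩
  · exact ⟨⟨2, by simp [wA]⟩, by simp⟩

/-- Number of pairs of positions carrying `s` before `t`. -/
def pr (s t : WS) : List WS → ℕ
  | [] => 0
  | a :: x => (if a = s then x.count t else 0) + pr s t x

lemma pr_append (s t : WS) (x y : List WS) :
    pr s t (x ++ y) = pr s t x + pr s t y + x.count s * y.count t := by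
  induction x with
  | nil => simp [pr]
  | cons a x ih =>
    simp only [List.cons_append, pr, ih, List.count_append, List.count_cons, beq_iff_eq]
    split_ifs <;> ring

lemma pr_zero_left (s t : WS) (x : List WS) (h : x.count s = 0) : pr s t x = 0 := by
  induction x with
  | nil => rfl
  | cons a x ih =>
    simp only [List.count_cons, beq_iff_eq] at h
    simp only [pr]
    have h1 : a ≠ s := by rintro rfl; simp at h
    simp [h1, ih (by omega)]

lemma pr_zero_right (s t : WS) (x : List WS) (h : x.count t = 0) : pr s t x = 0 := by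
  induction x with
  | nil => rfl
  | cons a x ih =>
    simp only [List.count_cons] at h
    simp only [pr]
    have h1 : x.count t = 0 := by omega
    simp [ih h1, h1]

def WInv (x : List WS) : Prop :=
  x = [wZ] ∨ (x.count wZ = 0 ∧ x.count wS ≤ 1 ∧
    x.count wc + pr wA wb x = x.count wb * x.count wb ∧ pr wa wb x = 0 ∧ pr wa wS x = 0 ∧
    pr wA wS x = x.count wS * x.count wb ∧ pr wS wb x = x.count wS * x.count wb)

lemma WInv.step {x y : List WS} (h : WInv x) (hs : wStep x y) : WInv y := by
  obtain ⟨r, hr, p, q, rfl, rfl⟩ := hs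
  right
  rcases h with h | ⟨h1, h2, h3, h4, h5, h6, h7⟩
  · have hl := congrArg List.length h
    have hz := congrArg (List.count wZ) h
    rcases hr with rfl | rfl | rfl | rfl | rfl | rfl
    · have hp : p = [] := by
        apply List.eq_nil_of_length_eq_zero; simp at hl; omega
      have hq : q = [] := by
        apply List.eq_nil_of_length_eq_zero; simp at hl; omega
      subst hp hq
      decide
    · have hp : p = [] := by
        apply List.eq_nil_of_length_eq_zero; simp at hl; omega
      have hq : q = [] := by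
        apply List.eq_nil_of_length_eq_zero; simp at hl; omega
      subst hp hq
      exact absurd hz (by decide)
    · have hp : p = [] := by
        apply List.eq_nil_of_length_eq_zero; simp at hl; omega
      have hq : q = [] := by
        apply List.eq_nil_of_length_eq_zero; simp at hl; omega
      subst hp hq
      exact absurd hz (by decide)
    all_goals (simp at hl; omega)
  · simp only [pr_append, List.count_append] at h1 h2 h3 h4 h5 h6 h7 ⊢
    rcases hr with rfl | rfl | rfl | rfl | rfl | rfl
    · exact absurd h1 (by have : List.count wZ [wZ] = 1 := by decide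
                          simp only; omega)
    · simp [pr, wZ, wS, wA, wa, wb, wc] at h1 h2 h3 h4 h5 h6 h7 ⊢
      have e1 : List.count wS p = 0 := by simp only [wS]; omega
      have e2 : List.count wS q = 0 := by simp only [wS]; omega
      have e3 := pr_zero_right wA wS p e1
      have e4 := pr_zero_right wA wS q e2
      have e5 := pr_zero_left wS wb p e1
      have e6 := pr_zero_left wS wb q e2
      simp only [wS, wA, wb] at e1 e2 e3 e4 e5 e6
      simp only [e1, e2, e3, e4, e5, e6] at *
      refine ⟨h1, by omega, by nlinarith, ?_, ?_, by omega, by omega⟩ <;> simp_all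
    · simp [pr, wZ, wS, wA, wa, wb, wc] at h1 h2 h3 h4 h5 h6 h7 ⊢
      have e1 : List.count wS p = 0 := by simp only [wS]; omega
      have e2 : List.count wS q = 0 := by simp only [wS]; omega
      have e3 := pr_zero_right wA wS p e1
      have e4 := pr_zero_right wA wS q e2
      have e5 := pr_zero_left wS wb p e1
      have e6 := pr_zero_left wS wb q e2
      simp only [wS, wA, wb] at e1 e2 e3 e4 e5 e6
      simp only [e1, e2, e3, e4, e5, e6] at *
      refine ⟨h1, by omega, by nlinarith, ?_, ?_, by omega, by omega⟩ <;> simp_all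
    · simp [pr, wZ, wS, wA, wa, wb, wc] at h1 h2 h3 h4 h5 h6 h7 ⊢
      exact ⟨h1, h2, by nlinarith, h4, h5, h6, h7⟩
    · simp [pr, wZ, wS, wA, wa, wb, wc] at h1 h2 h3 h4 h5 h6 h7 ⊢
      exact ⟨h1, h2, by nlinarith, h4, h5, h6, h7⟩
    · simp [pr, wZ, wS, wA, wa, wb, wc] at h1 h2 h3 h4 h5 h6 h7 ⊢
      simp_all

lemma wL_count {w : List (Fin 3)} (h : w ∈ wL) : w.count 2 = w.count 1 * w.count 1 := by
  have key : ∀ x, ReflTransGen wStep [wZ] x → WInv x := by
    intro x hx
    induction hx with
    | refl => exact Or.inl rfl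
    | tail _ hs ih => exact ih.step hs
  have inj : Function.Injective (Symbol.terminal : Fin 3 → WS) := fun _ _ h => by cases h; rfl
  rcases key _ h with h1 | ⟨_, _, h3, _⟩
  · cases w with
    | nil => simp at h1
    | cons t w => simp [wZ] at h1
  · rw [pr_zero_left _ _ _ (List.count_eq_zero.mpr (by simp [wA]))] at h3
    simpa only [wc, wb, List.count_map_of_injective _ _ inj, add_zero] using h3

lemma wStep_of {l r : List WS} (h : (l, r) ∈ wR) (p q : List WS) {x y : List WS}
    (hx : x = p ++ l ++ q) (hy : y = p ++ r ++ q) : wStep x y := ⟨_, h, p, q, hx, hy⟩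

lemma cross (q : List WS) : ∀ (w : List (Fin 3)), (∀ t ∈ w, t ≠ 0) → ∃ w' : List (Fin 3),
    (∀ t ∈ w', t ≠ 0) ∧ w'.count 1 = w.count 1 ∧ ∀ p, ReflTransGen wStep
      (p ++ [wA] ++ w.map Symbol.terminal ++ q) (p ++ w'.map Symbol.terminal ++ [wA] ++ q)
  | [], _ => ⟨[], by simp, rfl, fun p => by simpa using ReflTransGen.refl⟩
  | t :: w, h => by
    obtain ⟨w', h1, h2, h3⟩ := cross q w (fun s hs => h s (List.mem_cons_of_mem _ hs))
    have h4 := h t List.mem_cons_self
    fin_cases t
    · exact absurd rfl h4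
    · refine ⟨1 :: 2 :: w', ?_, by simp [h2], fun p => ?_⟩
      · intro s hs
        simp only [List.mem_cons] at hs
        rcases hs with rfl | rfl | hs
        · decide
        · decide
        · exact h1 s hs
      · refine ReflTransGen.head (wStep_of (l := [wA, wb]) (r := [wb, wc, wA]) (by simp [wR]) p
          (w.map Symbol.terminal ++ q) (by simp [wb]) rfl) ?_
        simpa [wb, wc] using h3 (p ++ [wb, wc])
    · refine ⟨2 :: w', ?_, by simp [h2], fun p => ?_⟩
      · intro s hs
        simp only [List.mem_cons] at hs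
        rcases hs with rfl | hs
        · decide
        · exact h1 s hs
      · refine ReflTransGen.head (wStep_of (l := [wA, wc]) (r := [wc, wA]) (by simp [wR]) p
          (w.map Symbol.terminal ++ q) (by simp [wc]) rfl) ?_
        simpa [wc] using h3 (p ++ [wc])

lemma finish : ∀ (j m : ℕ) (w : List (Fin 3)), (∀ t ∈ w, t ≠ 0) → ∃ z : List (Fin 3),
    z.count 1 = w.count 1 ∧ ReflTransGen wStep
      (List.replicate j wA ++ w.map Symbol.terminal ++ wa :: List.replicate m wa)
      (z.map Symbol.terminal)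
  | 0, m, w, _ => ⟨w ++ List.replicate (m + 1) 0, by simp [List.count_replicate], by
      simpa [wa, List.replicate_succ] using ReflTransGen.refl⟩
  | j + 1, m, w, h => by
    obtain ⟨w', h1, h2, h3⟩ := cross (wa :: List.replicate m wa) w h
    obtain ⟨z, h4, h5⟩ := finish j (m + 1) w' h1
    refine ⟨z, h4.trans h2, ?_⟩
    rw [List.replicate_succ']
    refine (h3 _).trans (ReflTransGen.head (wStep_of (l := [wA, wa]) (r := [wa, wa]) (by simp [wR])
      (List.replicate j wA ++ w'.map Symbol.terminal) (List.replicate m wa) (by simp) ?_) h5)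
    simp [List.replicate_succ]

lemma wL_exists (k : ℕ) : ∃ z ∈ wL, z.count 1 = k + 1 := by
  have h1 : ∀ j, ReflTransGen wStep [wZ]
      (List.replicate j wA ++ [wS] ++ (List.replicate j wb ++ [wa])) := by
    intro j
    induction j with
    | zero => exact ReflTransGen.single (wStep_of (l := [wZ]) (r := [wS, wa]) (by simp [wR]) [] []
        rfl rfl)
    | succ j ih =>
      refine ih.tail (wStep_of (l := [wS]) (r := [wA, wS, wb]) (by simp [wR]) _ _ rfl ?_)
      rw [List.replicate_succ' (a := wA), List.replicate_succ (a := wb)]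
      simp
  obtain ⟨z, h2, h3⟩ := finish (k + 1) 0 (List.replicate (k + 1) 1) (by simp)
  refine ⟨z, ((h1 k).tail (wStep_of (l := [wS]) (r := [wA, wb]) (by simp [wR]) _ _ rfl ?_)).trans
    h3, by simpa using h2⟩
  rw [List.replicate_succ' (a := wA), List.map_replicate, List.replicate_succ]
  simp [wb]

end Pool.Agent.MP_99d1ae_lc

end

section

set_option autoImplicit false

namespace Pool.Agent.MP_99d1ae_lc

open Relation

theorem wL_not_em1 : ¬ IsEM1 wL := by
  intro h
  choose z hz hc using wL_exists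
  obtain ⟨i, j, hij, hm⟩ := h.pump z hz
  obtain ⟨y, hy, h1⟩ := hm 2
  have e1 := h1 1
  have e2 := h1 2
  rw [wL_count hy, wL_count (hz i), wL_count (hz j)] at e2
  rw [hc, hc] at e1 e2
  obtain ⟨d, rfl⟩ := Nat.exists_eq_add_of_lt hij
  have e3 : y.count 1 = i + 1 + 2 * (d + 1) := by omega
  rw [e3] at e2
  nlinarith

theorem isMatrix_of_cf {T : Type} {L : Language T} (h : L.IsContextFree) : IsMatrix L := by
  obtain ⟨G, rfl⟩ := h
  set F : Set G.NT := (fun r => r.input) '' (G.rules : Set (ContextFreeRule T G.NT)) with hF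
  have : Finite F := (G.rules.finite_toSet.image _).to_subtype
  let g := shrink F
  let mr : ContextFreeRule T G.NT → ContextFreeRule T (Option F) :=
    fun r => ⟨g r.input, r.output.map (mapS g)⟩
  refine ⟨Option F, inferInstance, g G.initial, (fun r => [mr r]) '' G.rules,
    G.rules.finite_toSet.image _, fun w => ?_⟩
  change ReflTransGen G.Produces [Symbol.nonterminal G.initial] (w.map Symbol.terminal) ↔ _
  constructor
  · intro h
    have h1 := rtg_lift (p := fun x y => ∃ m ∈ (fun r => [mr r]) '' G.rules, MatStep m x y)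
      (List.map (mapS g)) (by
        rintro x y ⟨r, hr, h2⟩
        obtain ⟨p, q, rfl, rfl⟩ := h2.exists_parts
        refine ⟨_, ⟨r, hr, rfl⟩, _, ?_, rfl⟩
        simp only [List.map_append]
        exact (mr r).rewrites_of_exists_parts _ _) h
    rw [map_mapS_terminal] at h1
    exact h1
  · intro h
    have key : ∀ y', ReflTransGen (fun x y => ∃ m ∈ (fun r => [mr r]) '' G.rules, MatStep m x y)
        [Symbol.nonterminal (g G.initial)] y' → ∃ y, ReflTransGen G.Produces
          [Symbol.nonterminal G.initial] y ∧ y' = y.map (mapS g) := by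
      intro y' hy'
      induction hy' with
      | refl => exact ⟨_, ReflTransGen.refl, rfl⟩
      | tail _ hs ih =>
        obtain ⟨x, h1, rfl⟩ := ih
        obtain ⟨_, ⟨r, hr, rfl⟩, z, h2, h3⟩ := hs
        have h3' : z = _ := h3
        subst h3'
        obtain ⟨p', q', h4, rfl⟩ := h2.exists_parts
        obtain ⟨x1, q, rfl, h5, rfl⟩ := List.map_eq_append_iff.mp h4
        obtain ⟨p, b, rfl, rfl, h6⟩ := List.map_eq_append_iff.mp h5
        obtain ⟨a, l, rfl, h7, h8⟩ := List.map_eq_cons_iff.mp h6
        have h9 : l = [] := by simpa using h8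
        subst h9
        cases a with
        | terminal s => simp [mapS] at h7
        | nonterminal B =>
          have h10 : B = r.input :=
            shrink_inj (F := F) ⟨r, hr, rfl⟩ B (by simpa [mapS, mr] using h7)
          subst h10
          exact ⟨p ++ r.output ++ q, h1.tail ⟨r, hr, r.rewrites_of_exists_parts p q⟩, by simp [mr]⟩
    obtain ⟨y, h1, h2⟩ := key _ h
    rw [eq_of_map_mapS _ h2.symm] at h1
    exact h1

def dfa (q : Fin 4) (t : Fin 3) : Fin 4 :=
  if q = 0 ∧ t = 2 then 0 else if q = 0 ∧ t = 0 then 1 else if q = 1 ∧ t = 1 then 2 else 3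

lemma dfa_dead (w : List (Fin 3)) : w.foldl dfa 3 = 3 := by
  induction w with
  | nil => rfl
  | cons t w ih => simpa [dfa] using ih

lemma dfa_iff (w : List (Fin 3)) : w.foldl dfa 0 = 2 ↔ ∃ n, w = word n := by
  constructor
  · intro h
    induction w with
    | nil => simp at h
    | cons t w ih =>
      fin_cases t
      · cases w with
        | nil => simp [dfa] at h
        | cons s w =>
          fin_cases s
          · simp [dfa, dfa_dead] at h
          · cases w with
            | nil => exact ⟨0, rfl⟩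
            | cons s w => simp [dfa, dfa_dead] at h
          · simp [dfa, dfa_dead] at h
      · simp [dfa, dfa_dead] at h
      · obtain ⟨n, rfl⟩ := ih (by simpa [dfa] using h)
        exact ⟨n + 1, rfl⟩
  · rintro ⟨n, rfl⟩
    induction n with
    | zero => rfl
    | succ n ih => exact ih

lemma count_word (n : ℕ) : (word n).count 2 = n := by
  simp [word]

lemma word_primrec : Primrec word := by
  refine (Primrec.list_append.comp (Primrec.list_map Primrec.list_range
    (Primrec.const (2 : Fin 3)).to₂) (Primrec.const [0, 1])).of_eq fun n => ?_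
  simp [word]

lemma no_ap_squares {p d : ℕ} (hd : 0 < d) (h : ∀ m, ∃ t, p + m * d = t * t + t + t) : False := by
  obtain ⟨s, hs⟩ := h 0
  obtain ⟨t, ht⟩ := h (2 * (s + 1) + d + 1)
  have e1 : (t + 1) * (t + 1) = (s + 1 + d) * (s + 1 + d) + d := by nlinarith
  rcases Nat.lt_or_ge (s + 1 + d) (t + 1) with h1 | h1
  · nlinarith
  · nlinarith

open Nat.Partrec (Code) in
theorem exists_hard : ∃ L : Language (Fin 3), IsEM1 L ∧ ¬ IsMatrix L ∧
    ¬ ComputablePred fun w : List (Fin 3) => w ∈ L := by
  classical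
  let g : ℕ → ℕ → ℕ := fun m k => if m.unpair.1 = m.unpair.2 ∧
    (Code.evaln k (Denumerable.ofNat Code m.unpair.1) 0).isSome = true then 0 else 1
  have hg : Primrec₂ g := by
    refine Primrec.ite (PrimrecPred.and ?_ ?_) (Primrec.const 0) (Primrec.const 1)
    · exact Primrec.eq.comp (Primrec.fst.comp (Primrec.unpair.comp Primrec.fst))
        (Primrec.snd.comp (Primrec.unpair.comp Primrec.fst))
    · refine Primrec.eq.comp (Primrec.option_isSome.comp (Code.primrec_evaln.comp
        ((Primrec.snd.pair ((Primrec.ofNat Code).comp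
          (Primrec.fst.comp (Primrec.unpair.comp Primrec.fst)))).pair (Primrec.const 0))))
        (Primrec.const true)
  obtain ⟨L, h1, h2⟩ := exists_em1_coding hg
  have h3 : ∀ c : Code, word (Nat.pair (Encodable.encode c) (Encodable.encode c)) ∈ L ↔
      (c.eval 0).Dom := by
    intro c
    rw [h2, Part.dom_iff_mem]
    simp only [g, Nat.unpair_pair, Denumerable.ofNat_encode, true_and, ite_eq_left_iff,
      one_ne_zero, imp_false, not_not, Option.isSome_iff_exists, Code.evaln_complete]
    exact ⟨fun ⟨k, x, h⟩ => ⟨x, k, h⟩, fun ⟨x, k, h⟩ => ⟨k, x, h⟩⟩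
  have h4 : ∀ n, word n ∈ L → ∃ t, n = t * t + t + t := by
    intro n hn
    obtain ⟨k, hk⟩ := (h2 n).mp hn
    simp only [g, ite_eq_left_iff, one_ne_zero, imp_false, not_not] at hk
    refine ⟨n.unpair.1, ?_⟩
    have := Nat.pair_unpair n
    rw [← hk.1] at this
    simpa [Nat.pair] using this.symm
  refine ⟨L, h1, fun h => ?_, fun h => ?_⟩
  · let e : ℕ → ℕ := fun k => Nat.pair (Encodable.encode (Code.const k))
      (Encodable.encode (Code.const k))
    obtain ⟨i, j, hij, hm⟩ := (h.inter_dfa dfa 0 2).pump (fun k => word (e k)) (fun k =>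
      ⟨(h3 _).mpr (by simp [Code.eval_const]), (dfa_iff _).mpr ⟨_, rfl⟩⟩)
    have hne : e i ≠ e j := by
      intro h5
      have h6 := (Nat.pair_eq_pair.mp h5).1
      exact hij.ne (Code.const_inj (Encodable.encode_injective h6))
    have h5 : ∀ m, ∃ t, t * t + t + t + m * e i = e i + m * e j := by
      intro m
      obtain ⟨z, ⟨h6, h7⟩, h8⟩ := hm m
      obtain ⟨n, rfl⟩ := (dfa_iff _).mp h7
      obtain ⟨t, rfl⟩ := h4 n h6
      exact ⟨t, by simpa only [count_word] using h8 2⟩
    rcases Nat.lt_or_gt_of_ne hne with h6 | h6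
    · obtain ⟨d, hd⟩ := Nat.exists_eq_add_of_lt h6
      refine no_ap_squares (p := e i) (d := d + 1) (by omega) fun m => ?_
      obtain ⟨t, ht⟩ := h5 m
      exact ⟨t, by rw [hd] at ht; nlinarith⟩
    · obtain ⟨t, ht⟩ := h5 (e i + 1)
      nlinarith
  · apply ComputablePred.halting_problem 0
    have h5 : Computable fun c : Code =>
        word (Nat.pair (Encodable.encode c) (Encodable.encode c)) :=
      (word_primrec.comp (Primrec₂.natPair.comp Primrec.encode Primrec.encode)).to_comp
    exact (Computable.computablePred (h.decide.comp h5)).of_eq h3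

theorem position :
    (∀ (T : Type) (L : Language T), L.IsContextFree → IsMatrix L) ∧
    (∀ (T : Type) (L : Language T), IsMatrix L → IsEM1 L) ∧
    (∀ (k : ℕ) (L : Language (Fin k)), IsEM1 L → REPred fun w : List (Fin k) => w ∈ L) ∧
    (∃ L : Language (Fin 3), IsEM1 L ∧ ¬ IsMatrix L ∧ ¬ IsCS L ∧
      ¬ ComputablePred fun w : List (Fin 3) => w ∈ L) ∧
    (∃ L : Language (Fin 3), IsCS L ∧ (ComputablePred fun w : List (Fin 3) => w ∈ L) ∧
      (REPred fun w : List (Fin 3) => w ∈ L) ∧ ¬ IsEM1 L) := by
  refine ⟨fun _ _ => isMatrix_of_cf, fun _ _ => IsMatrix.isEM1, fun _ _ => IsEM1.re, ?_,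
    wL, wL_isCS, wL_isCS.computable, wL_isCS.computable.to_re, wL_not_em1⟩
  obtain ⟨L, h1, h2, h3⟩ := exists_hard
  exact ⟨L, h1, h2, fun h => h3 h.computable, h3⟩

end Pool.Agent.MP_99d1ae_lc

end
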